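import Mathlib

namespace Pool.Agent.Helper361_centerflat

open Finset

noncomputable section

/-- homogeneous coordinates of the grid point with exponents `s` -/
def xx {n : ℕ} (K : Fin 5 → ℝ) (s : Fin 5 → Fin n) (i : Fin 5) : ℝ := K i ^ (s i : ℕ)

/-- grid points at which the coordinate `i` wins (up to a factor 12) after division by the weights -/
def AA (n : ℕ) (K M : Fin 5 → ℝ) (i : Fin 5) : Finset (Fin 5 → Fin n) :=
  Finset.univ.filter (fun s => ∀ j, xx K s j * M i ≤ 12 * (xx K s i * M j))

/-- their number -/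
def NN (n : ℕ) (K M : Fin 5 → ℝ) (i : Fin 5) : ℝ := ((AA n K M i).card : ℝ)

/-- `n` is large and the bases grow fast -/
structure Big (n : ℕ) (K : Fin 5 → ℝ) : Prop where
  hn : 10 ^ 7 ≤ n
  h0 : ∀ i, 288 ≤ K i
  h1 : ∀ i j h : Fin 5, i < h → j < h → 20736 * (K i ^ n * K j ^ n) ≤ K h

variable {n : ℕ} {K M : Fin 5 → ℝ}

lemma mem_AA {i : Fin 5} {s : Fin 5 → Fin n} :
    s ∈ AA n K M i ↔ ∀ j, xx K s j * M i ≤ 12 * (xx K s i * M j) := by
  simp [AA]

lemma Big.one_le_K (h : Big n K) (i : Fin 5) : 1 ≤ K i := by linarith [h.h0 i]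

lemma Big.K_pos (h : Big n K) (i : Fin 5) : 0 < K i := by linarith [h.h0 i]

lemma Big.one_le_Kn (h : Big n K) (i : Fin 5) : 1 ≤ K i ^ n := one_le_pow₀ (h.one_le_K i)

lemma Big.Kn_pos (h : Big n K) (i : Fin 5) : 0 < K i ^ n := pow_pos (h.K_pos i) n

lemma Big.one_le_xx (h : Big n K) (s : Fin 5 → Fin n) (i : Fin 5) : 1 ≤ xx K s i :=
  one_le_pow₀ (h.one_le_K i)

lemma Big.xx_pos (h : Big n K) (s : Fin 5 → Fin n) (i : Fin 5) : 0 < xx K s i :=
  pow_pos (h.K_pos i) _

lemma Big.xx_mul_le (h : Big n K) (s : Fin 5 → Fin n) (i : Fin 5) :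
    xx K s i * K i ≤ K i ^ n := by
  unfold xx
  rw [← pow_succ]
  exact pow_le_pow_right₀ (h.one_le_K i) (s i).isLt

lemma Big.xx_lt (h : Big n K) (s : Fin 5 → Fin n) (i : Fin 5) :
    xx K s i < K i ^ n := by
  have h1 := h.xx_mul_le s i
  have h2 := h.xx_pos s i
  have h3 := h.h0 i
  nlinarith

/-- every grid point has a winner -/
lemma cover (hM : ∀ i, 0 < M i) (s : Fin 5 → Fin n) (hK : Big n K) : ∃ i, s ∈ AA n K M i := by
  obtain ⟨i, hi⟩ := Finite.exists_max (fun i => xx K s i / M i)
  refine ⟨i, mem_AA.2 fun j => ?_⟩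
  have h1 : xx K s j / M j ≤ xx K s i / M i := hi j
  rw [div_le_div_iff₀ (hM j) (hM i)] at h1
  have h2 : 0 < xx K s i * M j := mul_pos (hK.xx_pos s i) (hM j)
  linarith

lemma card_compl (j : Fin 5) : Fintype.card {k : Fin 5 // k ≠ j} = 4 := by
  fin_cases j <;> rfl

/-- a set of grid points determined by four coordinates has at most `n^4` elements -/
lemma card_le_of_inj (S : Finset (Fin 5 → Fin n)) (j : Fin 5)
    (h : ∀ s ∈ S, ∀ t ∈ S, (∀ k, k ≠ j → s k = t k) → s = t) : S.card ≤ n ^ 4 := by
  have h1 : S.card ≤ (Finset.univ : Finset ({k : Fin 5 // k ≠ j} → Fin n)).card := by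
    apply Finset.card_le_card_of_injOn (fun s k => s k.1)
    · intro s _; simp
    · intro s hs t ht hst
      apply h s hs t ht
      intro k hk
      exact congrFun hst ⟨k, hk⟩
  have h2 : (Finset.univ : Finset ({k : Fin 5 // k ≠ j} → Fin n)).card = n ^ 4 := by
    rw [Finset.card_univ, Fintype.card_fun, card_compl, Fintype.card_fin]
  omega

/-- two different winners are rare -/
lemma inter_card (hM : ∀ i, 0 < M i) (hK : Big n K) {i j : Fin 5} (hij : i ≠ j) :
    (AA n K M i ∩ AA n K M j).card ≤ n ^ 4 := by
  apply card_le_of_inj _ j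
  intro s hs t ht hst
  rw [Finset.mem_inter] at hs ht
  have hsi := (mem_AA.1 hs.1) j
  have hsj := (mem_AA.1 hs.2) i
  have hti := (mem_AA.1 ht.1) j
  have htj := (mem_AA.1 ht.2) i
  have hxi : xx K s i = xx K t i := by unfold xx; rw [hst i hij]
  have key : ∀ s t : Fin 5 → Fin n, xx K s j * M i ≤ 12 * (xx K s i * M j) →
      xx K t i * M j ≤ 12 * (xx K t j * M i) → xx K s i = xx K t i → ¬ (t j < s j) := by
    intro s t h1 h2 h3 h4
    have h5 : xx K t j * K j ≤ xx K s j := by
      unfold xx
      rw [← pow_succ]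
      exact pow_le_pow_right₀ (hK.one_le_K j) (by exact_mod_cast h4)
    have h6 : 0 < xx K t j * M i := mul_pos (hK.xx_pos t j) (hM i)
    have h7 : (xx K t j * K j) * M i ≤ xx K s j * M i := mul_le_mul_of_nonneg_right h5 (hM i).le
    have h8 : xx K s j * M i ≤ 144 * (xx K t j * M i) := by
      rw [h3] at h1; linarith
    have h9 := hK.h0 j
    nlinarith
  have hj : s j = t j := by
    apply le_antisymm
    · exact not_lt.1 (key s t hsi htj hxi)
    · exact not_lt.1 (key t s hti hsj hxi.symm)
  funext k
  by_cases hk : k = j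
  · rw [hk]; exact hj
  · exact hst k hk

lemma sum_ge (hM : ∀ i, 0 < M i) (hK : Big n K) : (n : ℝ) ^ 5 ≤ ∑ i, NN n K M i := by
  have h1 : (Finset.univ : Finset (Fin 5 → Fin n)) ⊆ Finset.univ.biUnion (fun i => AA n K M i) := by
    intro s _
    obtain ⟨i, hi⟩ := cover hM s hK
    exact Finset.mem_biUnion.2 ⟨i, Finset.mem_univ i, hi⟩
  have h2 := (Finset.card_le_card h1).trans Finset.card_biUnion_le
  have h3 : (Finset.univ : Finset (Fin 5 → Fin n)).card = n ^ 5 := by
    rw [Finset.card_univ, Fintype.card_fun, Fintype.card_fin, Fintype.card_fin]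
  rw [h3] at h2
  have h4 : ((n ^ 5 : ℕ) : ℝ) ≤ ((∑ i, (AA n K M i).card : ℕ) : ℝ) := by exact_mod_cast h2
  push_cast at h4
  exact h4

lemma sum_le (hM : ∀ i, 0 < M i) (hK : Big n K) :
    ∑ i, NN n K M i ≤ (n : ℝ) ^ 5 + 20 * (n : ℝ) ^ 4 := by
  classical
  choose w hw using fun s => cover (n := n) hM s hK
  have h1 : ∀ i, (AA n K M i).card ≤
      ((Finset.univ : Finset (Fin 5 → Fin n)).filter (fun s => w s = i)).card + 4 * n ^ 4 := by
    intro i
    have h2 : AA n K M i ⊆ (Finset.univ.filter (fun s => w s = i)) ∪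
        (Finset.univ.erase i).biUnion (fun j => AA n K M i ∩ AA n K M j) := by
      intro s hs
      by_cases h : w s = i
      · exact Finset.mem_union_left _ (by simp [h])
      · refine Finset.mem_union_right _ (Finset.mem_biUnion.2 ⟨w s, by simp [h], ?_⟩)
        exact Finset.mem_inter.2 ⟨hs, hw s⟩
    refine (Finset.card_le_card h2).trans ((Finset.card_union_le _ _).trans ?_)
    refine Nat.add_le_add_left ?_ _
    refine Finset.card_biUnion_le.trans ?_
    calc ∑ j ∈ Finset.univ.erase i, (AA n K M i ∩ AA n K M j).card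
        ≤ ∑ j ∈ Finset.univ.erase i, n ^ 4 := by
          apply Finset.sum_le_sum
          intro j hj
          exact inter_card hM hK (Ne.symm (Finset.ne_of_mem_erase hj))
      _ = 4 * n ^ 4 := by
          rw [Finset.sum_const, Finset.card_erase_of_mem (Finset.mem_univ i)]
          simp
  have h3 : ∑ i, ((Finset.univ : Finset (Fin 5 → Fin n)).filter (fun s => w s = i)).card = n ^ 5 := by
    rw [← Finset.card_eq_sum_card_fiberwise (f := w) (t := Finset.univ) (by intro s _; simp)]
    rw [Finset.card_univ, Fintype.card_fun, Fintype.card_fin, Fintype.card_fin]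
  have h4 : ∑ i, (AA n K M i).card ≤ n ^ 5 + 20 * n ^ 4 := by
    calc ∑ i, (AA n K M i).card ≤ ∑ i : Fin 5, (((Finset.univ : Finset (Fin 5 → Fin n)).filter
          (fun s => w s = i)).card + 4 * n ^ 4) := Finset.sum_le_sum fun i _ => h1 i
      _ = n ^ 5 + 20 * n ^ 4 := by
          rw [Finset.sum_add_distrib, h3, Finset.sum_const]
          simp
          ring
  have h5 : ((∑ i, (AA n K M i).card : ℕ) : ℝ) ≤ ((n ^ 5 + 20 * n ^ 4 : ℕ) : ℝ) := by
    exact_mod_cast h4
  push_cast at h5
  exact h5

/-- total shift by one -/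
def up (a : Fin n) : Fin n := if h : (a : ℕ) + 1 < n then ⟨a + 1, h⟩ else a

/-- the shift inequality -/
lemma shift (hM : ∀ i, 0 < M i) {M' : Fin 5 → ℝ} (hM' : ∀ i, 0 < M' i) (hK : Big n K) (i : Fin 5)
    (h : ∀ j, M' j * M i ≤ K i * (M j * M' i)) :
    NN n K M' i ≤ NN n K M i + (n : ℝ) ^ 4 := by
  classical
  have h1 : (AA n K M' i).card ≤ (AA n K M i).card + n ^ 4 := by
    rw [← Finset.card_filter_add_card_filter_not (s := AA n K M' i) (fun s => (s i : ℕ) + 1 < n)]
    refine Nat.add_le_add ?_ ?_
    · apply Finset.card_le_card_of_injOn (fun s => Function.update s i (up (s i)))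
      · intro s hs
        rw [Finset.mem_coe, Finset.mem_filter] at hs
        rw [Finset.mem_coe, mem_AA]
        intro j
        have hxi : xx K (Function.update s i (up (s i))) i = K i * xx K s i := by
          unfold xx up
          rw [Function.update_self, dif_pos hs.2]
          simp only
          rw [pow_succ]; ring
        rw [hxi]
        by_cases hj : j = i
        · subst hj
          rw [hxi]
          have : 0 < K j * xx K s j * M j :=
            mul_pos (mul_pos (hK.K_pos j) (hK.xx_pos s j)) (hM j)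
          linarith
        · have hxj : xx K (Function.update s i (up (s i))) j = xx K s j := by
            unfold xx; rw [Function.update_of_ne hj]
          rw [hxj]
          have h2 := (mem_AA.1 hs.1) j
          have h3 := h j
          have h4 := hK.xx_pos s i
          have h5 := hK.xx_pos s j
          have h6 := hM i
          have h7 := hM' i
          have h8 := hM j
          -- multiply by M' i
          have h9 : (xx K s j * M i) * M' i ≤ (12 * (K i * xx K s i * M j)) * M' i := by
            calc (xx K s j * M i) * M' i = (xx K s j * M' i) * M i := by ring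
              _ ≤ (12 * (xx K s i * M' j)) * M i := mul_le_mul_of_nonneg_right h2 h6.le
              _ = 12 * xx K s i * (M' j * M i) := by ring
              _ ≤ 12 * xx K s i * (K i * (M j * M' i)) :=
                  mul_le_mul_of_nonneg_left h3 (by positivity)
              _ = (12 * (K i * xx K s i * M j)) * M' i := by ring
          exact le_of_mul_le_mul_right h9 h7
      · intro s hs t ht hst
        rw [Finset.mem_coe, Finset.mem_filter] at hs ht
        simp only at hst
        funext k
        by_cases hk : k = i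
        · subst hk
          have := congrFun hst k
          rw [Function.update_self, Function.update_self] at this
          unfold up at this
          rw [dif_pos hs.2, dif_pos ht.2] at this
          have h2 := Fin.mk.inj_iff.1 this
          exact Fin.ext (by omega)
        · have := congrFun hst k
          rwa [Function.update_of_ne hk, Function.update_of_ne hk] at this
    · apply card_le_of_inj _ i
      intro s hs t ht hst
      rw [Finset.mem_filter] at hs ht
      funext k
      by_cases hk : k = i
      · subst hk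
        have h2 := (s k).isLt
        have h3 := (t k).isLt
        exact Fin.ext (by omega)
      · exact hst k hk
  unfold NN
  exact_mod_cast h1

/-- a completely beaten coordinate never wins -/
lemma beaten (hK : Big n K) {i j : Fin 5} (hi : 0 < M i)
    (h : 12 * (K j ^ n * M i) ≤ M j) : NN n K M j = 0 := by
  unfold NN
  rw [Nat.cast_eq_zero, Finset.card_eq_zero, Finset.eq_empty_iff_forall_notMem]
  intro s hs
  have h1 := (mem_AA.1 hs) i
  have h2 := hK.one_le_xx s i
  have h3 := hK.xx_lt s j
  have h4 : 0 < K j ^ n * M i := mul_pos (hK.Kn_pos j) hi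
  have h5 : M j ≤ xx K s i * M j := by nlinarith
  have h6 : xx K s j * M i < K j ^ n * M i := mul_lt_mul_of_pos_right h3 hi
  linarith

lemma NN_nonneg (i : Fin 5) : 0 ≤ NN n K M i := by unfold NN; positivity

end

end Pool.Agent.Helper361_centerflat
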