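import Pool.Agent.Helper361_centerflat.Main

namespace Pool.Agent.Helper361_centerflat

open Finset

noncomputable section

variable {n : ℕ} {K M a b : Fin 5 → ℝ} {p : Fin 5 → Fin 5}

/-- the mirrored configuration -/
lemma Cfg.mirror (h : Cfg n K a b p) : Cfg n K b a (fun i => p (Fin.rev i)) where
  big := h.big
  inj := fun i j hij => Fin.rev_injective (h.inj hij)
  a0 := h.b0
  b0 := h.a0
  ab := fun i => by have := h.ab i; linarith
  hb := h.ha
  ha := h.hb
  srt := fun i j hij => by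
    have h1 := h.srt (Fin.rev j) (Fin.rev i) (Fin.rev_le_rev.2 hij)
    linarith
  good := fun u hu h1 h2 => h.good u hu h2 h1

lemma AA_scale {M' : Fin 5 → ℝ} {c : ℝ} (hc : 0 < c) (h : ∀ i, M' i = c * M i) (i : Fin 5) :
    AA n K M' i = AA n K M i := by
  ext s
  rw [mem_AA, mem_AA]
  have e : ∀ j, (xx K s j * M' i ≤ 12 * (xx K s i * M' j)) ↔
      (xx K s j * M i ≤ 12 * (xx K s i * M j)) := by
    intro j
    rw [h i, h j]
    have e1 : xx K s j * (c * M i) = c * (xx K s j * M i) := by ring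
    have e2 : 12 * (xx K s i * (c * M j)) = c * (12 * (xx K s i * M j)) := by ring
    rw [e1, e2]
    exact mul_le_mul_iff_right₀ hc
  exact forall_congr' e

lemma Q_mirror {r : ℝ} (hr : 0 < r) (i : Fin 5) : Q n K b a (1 / r) i = Q n K a b r i := by
  unfold Q NN
  rw [AA_scale (M := MM a b r) (M' := MM b a (1 / r)) (c := 1 / r) (by positivity) (fun j => ?_)]
  unfold MM
  have h1 : (1 / r) * max (a j) (r * b j) = max ((1 / r) * a j) ((1 / r) * (r * b j)) :=
    mul_max_of_nonneg _ _ (by positivity)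
  have h2 : (1 / r) * (r * b j) = b j := by field_simp
  rw [h1, h2, max_comm]

lemma Cfg.case_i (h : Cfg n K a b p) (h3 : b (p 3) = 0) : False := by
  obtain ⟨hN, he, hN0⟩ := h.big.ineq
  have hb : ∀ i : Fin 5, i ≤ 3 → b (p i) = 0 := by
    intro i hi
    rcases (h.b0 (p i)).lt_or_eq with h1 | h1
    · have := h.b_pos_of_le h1 3 hi
      linarith
    · exact h1.symm
  have b4 := h.b_p4
  have a0 := h.a_p0
  have K4 := h.big.Kn_pos (p 4)
  set r := 12 * (K (p 4) ^ n * a (p 0)) / b (p 4) with hr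
  have rpos : 0 < r := by positivity
  have e2 : r * b (p 4) = 12 * (K (p 4) ^ n * a (p 0)) := by
    rw [hr]; field_simp
  have hQ4 : Q n K a b r (p 4) = 0 := by
    apply h.beaten rpos (i := p 0)
    have m0 : MM a b r (p 0) = a (p 0) := by
      unfold MM; rw [h.hb, mul_zero]; exact max_eq_left (h.a0 _)
    have m4 : MM a b r (p 4) = r * b (p 4) := by
      unfold MM; rw [h.ha]; exact max_eq_right (by positivity)
    rw [m0, m4, e2]
  have pr : ∀ i : Fin 5, i ≤ 3 → (n : ℝ) ^ 5 ≤ 3 * Q n K a b r (p i) := by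
    intro i hi
    have h1 := h.pair rpos (c := p i) (d := p 4) (by rw [hb i hi, mul_zero]; exact h.a0 _)
      (by rw [h.ha]; positivity)
    rw [hQ4] at h1
    linarith
  have h0 := pr 0 (by decide)
  have h1 := pr 1 (by decide)
  have h2 := pr 2 (by decide)
  have h3' := pr 3 (by decide)
  have h5 := h.sum_le rpos
  rw [hQ4] at h5
  linarith

lemma Cfg.case_iii (h : Cfg n K a b p) (h2 : b (p 2) = 0) (h3 : 0 < b (p 3)) : False := by
  obtain ⟨hN, he, hN0⟩ := h.big.ineq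
  have b4 := h.b_p4
  have a0 := h.a_p0
  have a3 := h.a0 (p 3)
  have K4 := h.big.Kn_pos (p 4)
  have K3 := h.big.Kn_pos (p 3)
  set t := 1 + a (p 3) / b (p 3) + 12 * (K (p 3) ^ n * a (p 0)) / b (p 3)
    + 12 * (K (p 4) ^ n * a (p 0)) / b (p 4) with ht
  have u1 : 0 ≤ a (p 3) / b (p 3) := by positivity
  have u2 : 0 ≤ 12 * (K (p 3) ^ n * a (p 0)) / b (p 3) := by positivity
  have u3 : 0 ≤ 12 * (K (p 4) ^ n * a (p 0)) / b (p 4) := by positivity
  have tpos : 0 < t := by linarith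
  have v1 : a (p 3) ≤ t * b (p 3) := by
    rw [← div_le_iff₀ h3]; linarith
  have v2 : 12 * (K (p 3) ^ n * a (p 0)) ≤ t * b (p 3) := by
    rw [← div_le_iff₀ h3]; linarith
  have v3 : 12 * (K (p 4) ^ n * a (p 0)) ≤ t * b (p 4) := by
    rw [← div_le_iff₀ b4]; linarith
  have m0 : MM a b t (p 0) = a (p 0) := by
    unfold MM; rw [h.hb, mul_zero]; exact max_eq_left (h.a0 _)
  have q3 : Q n K a b t (p 3) = 0 := by
    apply h.beaten tpos (i := p 0)
    rw [m0]
    exact v2.trans (le_max_right _ _)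
  have q4 : Q n K a b t (p 4) = 0 := by
    apply h.beaten tpos (i := p 0)
    rw [m0]
    exact v3.trans (le_max_right _ _)
  have hz := h.zero tpos (by rw [h2, mul_zero]; exact h.a0 _) v1 h3
  rw [q3, q4] at hz
  linarith

/-- no good configuration exists -/
theorem Cfg.false (h : Cfg n K a b p) : False := by
  obtain ⟨hN, he, hN0⟩ := h.big.ineq
  rcases (h.b0 (p 3)).lt_or_eq with b3 | b3
  swap
  · exact h.case_i b3.symm
  rcases (h.a0 (p 1)).lt_or_eq with a1 | a1
  swap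
  · exact h.mirror.case_i a1.symm
  rcases (h.b0 (p 2)).lt_or_eq with b2 | b2
  swap
  · exact h.case_iii b2.symm b3
  rcases (h.a0 (p 2)).lt_or_eq with a2 | a2
  swap
  · exact h.mirror.case_iii a2.symm a1
  set r2 := a (p 2) / b (p 2) with hr2
  have r2pos : 0 < r2 := by positivity
  have hs : a (p 2) = r2 * b (p 2) := by rw [hr2]; field_simp
  have hs' : b (p 2) = (1 / r2) * a (p 2) := by rw [hs]; field_simp
  have y3 : a (p 3) ≤ r2 * b (p 3) := by
    rw [hr2, div_mul_eq_mul_div, le_div_iff₀ b2]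
    have := h.srt 2 3 (by decide)
    linarith
  have x1 : r2 * b (p 1) ≤ a (p 1) := by
    rw [hr2, div_mul_eq_mul_div, div_le_iff₀ b2]
    have := h.srt 1 2 (by decide)
    linarith
  have x1' : b (p 1) ≤ (1 / r2) * a (p 1) := by
    rw [one_div_mul_eq_div, le_div_iff₀ r2pos]
    linarith
  have y4 : a (p 4) ≤ r2 * b (p 4) := by
    rw [h.ha]; exact mul_nonneg r2pos.le (h.b0 _)
  have x0 : r2 * b (p 0) ≤ a (p 0) := by
    rw [h.hb, mul_zero]; exact h.a0 _
  have z1 := h.zero r2pos hs.ge y3 b3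
  have z2 := h.mirror.zero (t := 1 / r2) (by positivity) (by
      change (1 / r2) * a (p 2) ≤ b (p 2)
      exact hs'.ge) (by
      change b (p 1) ≤ (1 / r2) * a (p 1)
      exact x1') (by
      change 0 < a (p 1)
      exact a1)
  rw [Q_mirror r2pos, Q_mirror r2pos] at z2
  change (n : ℝ) ^ 5 < 50 * (Q n K a b r2 (p 1) + Q n K a b r2 (p 0)) at z2
  have s := h.single r2pos hs
  have c03 := h.pair r2pos x0 y3
  have c04 := h.pair r2pos x0 y4
  have c13 := h.pair r2pos x1 y3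
  have c14 := h.pair r2pos x1 y4
  have hs5 := h.sum_le r2pos
  have g3 : (n : ℝ) ^ 5 ≤ 200 * Q n K a b r2 (p 3) := by linarith
  have g4 : (n : ℝ) ^ 5 ≤ 200 * Q n K a b r2 (p 4) := by linarith
  have g0 : (n : ℝ) ^ 5 ≤ 200 * Q n K a b r2 (p 0) := by linarith
  have g1 : (n : ℝ) ^ 5 ≤ 200 * Q n K a b r2 (p 1) := by linarith
  have hq : ∃ q : Fin 5, q ≤ 1 ∧ q ≠ p 2 := by
    by_cases h0 : p 2 = 0
    · exact ⟨1, le_rfl, by rw [h0]; decide⟩
    · exact ⟨0, by decide, fun h1 => h0 h1.symm⟩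
  obtain ⟨q, hq1, hq2⟩ := hq
  obtain ⟨m, hm⟩ := Finite.injective_iff_surjective.1 h.inj q
  have hm2 : m ≠ 2 := by intro h1; rw [h1] at hm; exact hq2 hm.symm
  have hcases : m = 0 ∨ m = 1 ∨ m = 3 ∨ m = 4 := by
    revert m
    have : ∀ m : Fin 5, m ≠ 2 → m = 0 ∨ m = 1 ∨ m = 3 ∨ m = 4 := by decide
    intro m _ h1
    exact this m h1
  rw [← hm] at hq1
  have mir : ∀ l l' : Fin 5, ((l = 3 ∧ l' = 4) ∨ (l = 4 ∧ l' = 3)) → p (Fin.rev l) ≤ 1 →
      (n : ℝ) ^ 5 ≤ 200 * Q n K a b r2 (p (Fin.rev l)) → False := by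
    intro l l' hll h1 h2
    refine h.mirror.main (r2 := 1 / r2) (by positivity) ?_ ?_ ?_ l l' hll h1 ?_
    · change b (p 2) = (1 / r2) * a (p 2)
      exact hs'
    · change 0 < a (p 2)
      exact a2
    · change 0 < b (p 3)
      exact b3
    · rw [Q_mirror r2pos]
      exact h2
  rcases hcases with h1 | h1 | h1 | h1
  · rw [h1] at hq1
    exact mir 4 3 (Or.inr ⟨rfl, rfl⟩) hq1 g0
  · rw [h1] at hq1
    exact mir 3 4 (Or.inl ⟨rfl, rfl⟩) hq1 g1
  · rw [h1] at hq1
    exact h.main r2pos hs b2 a1 3 4 (Or.inl ⟨rfl, rfl⟩) hq1 g3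
  · rw [h1] at hq1
    exact h.main r2pos hs b2 a1 4 3 (Or.inr ⟨rfl, rfl⟩) hq1 g4

end

end Pool.Agent.Helper361_centerflat
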