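import Pool.Agent.Helper361_centerflat.Patterns

namespace Pool.Agent.Helper361_centerflat

open Finset

noncomputable section

variable {n : ℕ} {K M a b : Fin 5 → ℝ} {p : Fin 5 → Fin 5}

/-- total shift down by one -/
def dn (a : Fin n) : Fin n := ⟨(a : ℕ) - 1, lt_of_le_of_lt (Nat.sub_le _ _) a.isLt⟩

/-- low coordinates from `s`, high coordinates from `t`, lowered by one -/
def mix (g : Fin 5) (s t : Fin 5 → Fin n) : Fin 5 → Fin n := fun i => if i < g then s i else dn (t i)

/-- points at which some index below `g` wins -/
def AJ (n : ℕ) (K M : Fin 5 → ℝ) (g : Fin 5) : Finset (Fin 5 → Fin n) :=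
  Finset.univ.filter (fun s => ∃ j, j < g ∧ s ∈ AA n K M j)

lemma xx_mix_low {g : Fin 5} {s t : Fin 5 → Fin n} {i : Fin 5} (hi : i < g) :
    xx K (mix g s t) i = xx K s i := by
  unfold xx mix; rw [if_pos hi]

lemma xx_mix_high {g : Fin 5} {s t : Fin 5 → Fin n} {i : Fin 5} (hi : ¬ i < g)
    (ht : (t i : ℕ) ≠ 0) : K i * xx K (mix g s t) i = xx K t i := by
  unfold xx mix dn
  rw [if_neg hi]
  simp only
  rw [← pow_succ']
  congr 1
  omega

lemma card_zero_coord (i : Fin 5) :
    (Finset.univ.filter (fun s : Fin 5 → Fin n => (s i : ℕ) = 0)).card ≤ n ^ 4 := by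
  apply card_le_of_inj _ i
  intro s hs t ht hst
  rw [Finset.mem_filter] at hs ht
  funext k
  by_cases hk : k = i
  · subst hk; exact Fin.ext (by omega)
  · exact hst k hk

lemma card_grid : (Finset.univ : Finset (Fin 5 → Fin n)).card = n ^ 5 := by
  rw [Finset.card_univ, Fintype.card_fun, Fintype.card_fin, Fintype.card_fin]

/-- the exchange inequality -/
lemma swap (hK : Big n K) {M M' : Fin 5 → ℝ} {g q : Fin 5} (hq : q < g)
    {r r' : ℝ} (hr : 0 < r) (hr' : 0 < r') (hb : ∀ j, j < g → 0 < b j)
    (hM : ∀ i, 0 < M i) (hM' : ∀ i, 0 < M' i)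
    (e : ∀ j, j < g → M j = r * b j) (e' : ∀ j, j < g → M' j = r' * b j) :
    (AA n K M' q).card * (AJ n K M g).card ≤
      (AA n K M q).card * (AJ n K M' g).card + 10 * n ^ 9 := by
  classical
  set S := (AA n K M' q) ×ˢ (AJ n K M g) with hS
  set bad : (Fin 5 → Fin n) × (Fin 5 → Fin n) → Prop :=
    fun x => ∃ i, ((x.1 i : ℕ) = 0 ∨ (x.2 i : ℕ) = 0) with hbad
  have hbadcard : (S.filter bad).card ≤ 10 * n ^ 9 := by
    have hsub : S.filter bad ⊆ (Finset.univ : Finset (Fin 5)).biUnion (fun i =>
        ((Finset.univ.filter (fun s : Fin 5 → Fin n => (s i : ℕ) = 0)) ×ˢ Finset.univ) ∪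
        (Finset.univ ×ˢ (Finset.univ.filter (fun s : Fin 5 → Fin n => (s i : ℕ) = 0)))) := by
      intro x hx
      rw [Finset.mem_filter] at hx
      obtain ⟨i, hi⟩ := hx.2
      refine Finset.mem_biUnion.2 ⟨i, Finset.mem_univ i, ?_⟩
      rcases hi with hi | hi
      · apply Finset.mem_union_left; simp [hi]
      · apply Finset.mem_union_right; simp [hi]
    refine (Finset.card_le_card hsub).trans (Finset.card_biUnion_le.trans ?_)
    calc ∑ i : Fin 5, (((Finset.univ.filter (fun s : Fin 5 → Fin n => (s i : ℕ) = 0)) ×ˢ
            (Finset.univ : Finset (Fin 5 → Fin n))) ∪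
          ((Finset.univ : Finset (Fin 5 → Fin n)) ×ˢ
            (Finset.univ.filter (fun s : Fin 5 → Fin n => (s i : ℕ) = 0)))).card
        ≤ ∑ i : Fin 5, 2 * n ^ 9 := by
          apply Finset.sum_le_sum
          intro i _
          refine (Finset.card_union_le _ _).trans ?_
          rw [Finset.card_product, Finset.card_product, card_grid]
          have h1 := card_zero_coord (n := n) i
          have h2 := Nat.mul_le_mul_right (n ^ 5) h1
          have h3 := Nat.mul_le_mul_left (n ^ 5) h1
          have h4 : n ^ 4 * n ^ 5 = n ^ 9 := by ring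
          have h5 : n ^ 5 * n ^ 4 = n ^ 9 := by ring
          omega
      _ = 10 * n ^ 9 := by simp; ring
  have hgood : (S.filter (fun x => ¬ bad x)).card ≤ ((AA n K M q) ×ˢ (AJ n K M' g)).card := by
    apply Finset.card_le_card_of_injOn (fun x => (mix g x.1 x.2, mix g x.2 x.1))
    · rintro ⟨s, t⟩ hx
      rw [Finset.mem_coe, Finset.mem_filter, hS, Finset.mem_product] at hx
      obtain ⟨⟨hs, ht⟩, hnb⟩ := hx
      simp only at hs ht
      have hnz : ∀ i, (s i : ℕ) ≠ 0 ∧ (t i : ℕ) ≠ 0 := by
        intro i
        constructor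
        · intro h0; exact hnb ⟨i, Or.inl h0⟩
        · intro h0; exact hnb ⟨i, Or.inr h0⟩
      have hs' := mem_AA.1 hs
      rw [AJ, Finset.mem_filter] at ht
      obtain ⟨j, hj, htj⟩ := ht.2
      have ht' := mem_AA.1 htj
      rw [Finset.mem_coe, Finset.mem_product]
      constructor
      · -- first component
        simp only
        rw [mem_AA]
        intro i
        rw [xx_mix_low hq]
        by_cases hi : i < g
        · rw [xx_mix_low hi, e q hq, e i hi]
          have h1 := hs' i
          rw [e' q hq, e' i hi] at h1
          have h2 : (xx K s i * b q) * r' ≤ (12 * (xx K s q * b i)) * r' := by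
            calc (xx K s i * b q) * r' = xx K s i * (r' * b q) := by ring
              _ ≤ 12 * (xx K s q * (r' * b i)) := h1
              _ = (12 * (xx K s q * b i)) * r' := by ring
          have h3 := le_of_mul_le_mul_right h2 hr'
          calc xx K s i * (r * b q) = r * (xx K s i * b q) := by ring
            _ ≤ r * (12 * (xx K s q * b i)) := mul_le_mul_of_nonneg_left h3 hr.le
            _ = 12 * (xx K s q * (r * b i)) := by ring
        · have hji : j < i := lt_of_lt_of_le hj (not_lt.1 hi)
          have hx := xx_mix_high (K := K) (s := s) (t := t) hi (hnz i).2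
          have h1 := ht' i
          rw [e j hj] at h1
          -- lower bound for q at s
          have h2 := hs' j
          rw [e' q hq, e' j hj] at h2
          have h3 : (b q) * r' ≤ (12 * (xx K s q * b j)) * r' := by
            have h4 := hK.one_le_xx s j
            have h5 : 0 < b q * r' := mul_pos (hb q hq) hr'
            calc (b q) * r' ≤ xx K s j * (b q * r') := le_mul_of_one_le_left h5.le h4
              _ = xx K s j * (r' * b q) := by ring
              _ ≤ 12 * (xx K s q * (r' * b j)) := h2
              _ = (12 * (xx K s q * b j)) * r' := by ring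
          have h4 : b q ≤ 12 * (xx K s q * b j) := le_of_mul_le_mul_right h3 hr'
          have hKi := hK.K_pos i
          have hxq := hK.xx_pos s q
          have hxm := hK.xx_pos (mix g s t) i
          have hMi := hM i
          have hbj := hb j hj
          have h5 : xx K t j ≤ K j ^ n := (hK.xx_lt t j).le
          have h6 : 20736 * (K j ^ n * K j ^ n) ≤ K i := hK.h1 j j i hji hji
          have h7 := hK.one_le_Kn j
          have h8 : 12 * K j ^ n ≤ K i := by nlinarith
          rw [e q hq]
          have h9 : K i * (xx K (mix g s t) i * (r * b q)) ≤ K i * (12 * (xx K s q * M i)) := by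
            calc K i * (xx K (mix g s t) i * (r * b q)) = (K i * xx K (mix g s t) i) * r * b q := by ring
              _ = xx K t i * r * b q := by rw [hx]
              _ ≤ xx K t i * r * (12 * (xx K s q * b j)) :=
                  mul_le_mul_of_nonneg_left h4 (mul_pos (hK.xx_pos t i) hr).le
              _ = 12 * xx K s q * (xx K t i * (r * b j)) := by ring
              _ ≤ 12 * xx K s q * (12 * (xx K t j * M i)) :=
                  mul_le_mul_of_nonneg_left h1 (by positivity)
              _ ≤ 12 * xx K s q * (12 * (K j ^ n * M i)) := by gcongr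
              _ = (12 * K j ^ n) * (12 * (xx K s q * M i)) := by ring
              _ ≤ K i * (12 * (xx K s q * M i)) := by gcongr
          exact le_of_mul_le_mul_left h9 hKi
      · -- second component
        simp only
        rw [AJ, Finset.mem_filter]
        refine ⟨Finset.mem_univ _, ?_⟩
        obtain ⟨m, hm, hmax⟩ := Finset.exists_max_image (Finset.univ.filter (fun j : Fin 5 => j < g))
          (fun j => xx K t j / b j) ⟨q, by simp [hq]⟩
        have hmg : m < g := (Finset.mem_filter.1 hm).2
        have hmax' : ∀ j, j < g → xx K t j * b m ≤ xx K t m * b j := by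
          intro j hj
          have h1 := hmax j (by simp [hj])
          rwa [div_le_div_iff₀ (hb j hj) (hb m hmg)] at h1
        refine ⟨m, hmg, ?_⟩
        rw [mem_AA]
        intro i
        rw [xx_mix_low hmg, e' m hmg]
        have hxm := hK.xx_pos t m
        by_cases hi : i < g
        · rw [xx_mix_low hi, e' i hi]
          have h1 := hmax' i hi
          have h2 : 0 < xx K t m * b i := mul_pos hxm (hb i hi)
          have h3 := hb m hmg
          calc xx K t i * (r' * b m) = r' * (xx K t i * b m) := by ring
            _ ≤ r' * (xx K t m * b i) := mul_le_mul_of_nonneg_left h1 hr'.le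
            _ ≤ 12 * (r' * (xx K t m * b i)) := by
                have : 0 < r' * (xx K t m * b i) := mul_pos hr' h2
                linarith
            _ = 12 * (xx K t m * (r' * b i)) := by ring
        · have hqi : q < i := lt_of_lt_of_le hq (not_lt.1 hi)
          have hx := xx_mix_high (K := K) (s := t) (t := s) hi (hnz i).1
          have h1 := hs' i
          rw [e' q hq] at h1
          have h2 := hmax' q hq
          have h3 := hK.one_le_xx t q
          have h4 : b m ≤ xx K t m * b q := by
            have h5 := hb m hmg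
            nlinarith
          have hKi := hK.K_pos i
          have h5 : xx K s q ≤ K q ^ n := (hK.xx_lt s q).le
          have h6 : 20736 * (K q ^ n * K q ^ n) ≤ K i := hK.h1 q q i hqi hqi
          have h7 := hK.one_le_Kn q
          have h8 : K q ^ n ≤ K i := by nlinarith
          have hMi := hM' i
          have h9 : K i * (xx K (mix g t s) i * (r' * b m)) ≤ K i * (12 * (xx K t m * M' i)) := by
            calc K i * (xx K (mix g t s) i * (r' * b m)) = (K i * xx K (mix g t s) i) * r' * b m := by ring
              _ = xx K s i * r' * b m := by rw [hx]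
              _ ≤ xx K s i * r' * (xx K t m * b q) :=
                  mul_le_mul_of_nonneg_left h4 (mul_pos (hK.xx_pos s i) hr').le
              _ = xx K t m * (xx K s i * (r' * b q)) := by ring
              _ ≤ xx K t m * (12 * (xx K s q * M' i)) := mul_le_mul_of_nonneg_left h1 hxm.le
              _ ≤ xx K t m * (12 * (K q ^ n * M' i)) := by gcongr
              _ = K q ^ n * (12 * (xx K t m * M' i)) := by ring
              _ ≤ K i * (12 * (xx K t m * M' i)) := by gcongr
          exact le_of_mul_le_mul_left h9 hKi
    · rintro ⟨s, t⟩ hx ⟨s', t'⟩ hx' heq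
      rw [Finset.mem_coe, Finset.mem_filter] at hx hx'
      have hnz : ∀ i, (s i : ℕ) ≠ 0 ∧ (t i : ℕ) ≠ 0 := by
        intro i
        constructor
        · intro h0; exact hx.2 ⟨i, Or.inl h0⟩
        · intro h0; exact hx.2 ⟨i, Or.inr h0⟩
      have hnz' : ∀ i, (s' i : ℕ) ≠ 0 ∧ (t' i : ℕ) ≠ 0 := by
        intro i
        constructor
        · intro h0; exact hx'.2 ⟨i, Or.inl h0⟩
        · intro h0; exact hx'.2 ⟨i, Or.inr h0⟩
      simp only [Prod.mk.injEq] at heq
      obtain ⟨h1, h2⟩ := heq
      have dninj : ∀ u v : Fin n, (u : ℕ) ≠ 0 → (v : ℕ) ≠ 0 → dn u = dn v → u = v := by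
        intro u v hu hv huv
        unfold dn at huv
        have := Fin.mk.inj_iff.1 huv
        exact Fin.ext (by omega)
      have hs : s = s' := by
        funext i
        by_cases hi : i < g
        · have := congrFun h1 i
          unfold mix at this
          rwa [if_pos hi, if_pos hi] at this
        · have := congrFun h2 i
          unfold mix at this
          rw [if_neg hi, if_neg hi] at this
          exact dninj _ _ (hnz i).1 (hnz' i).1 this
      have ht : t = t' := by
        funext i
        by_cases hi : i < g
        · have := congrFun h2 i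
          unfold mix at this
          rwa [if_pos hi, if_pos hi] at this
        · have := congrFun h1 i
          unfold mix at this
          rw [if_neg hi, if_neg hi] at this
          exact dninj _ _ (hnz i).2 (hnz' i).2 this
      rw [hs, ht]
  rw [Finset.card_product] at hgood
  have h1 : S.card = (AA n K M' q).card * (AJ n K M g).card := by rw [hS, Finset.card_product]
  rw [← h1, ← Finset.card_filter_add_card_filter_not (s := S) bad]
  omega

lemma AJ_ge (hM : ∀ i, 0 < M i) (hK : Big n K) (g : Fin 5) :
    (n : ℝ) ^ 5 ≤ ((AJ n K M g).card : ℝ) + ∑ i ∈ Finset.univ.filter (fun i => g ≤ i), NN n K M i := by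
  have h1 : (Finset.univ : Finset (Fin 5 → Fin n)) ⊆ AJ n K M g ∪
      (Finset.univ.filter (fun i => g ≤ i)).biUnion (fun i => AA n K M i) := by
    intro s _
    obtain ⟨i, hi⟩ := cover hM s hK
    by_cases h : i < g
    · apply Finset.mem_union_left
      rw [AJ, Finset.mem_filter]
      exact ⟨Finset.mem_univ _, i, h, hi⟩
    · apply Finset.mem_union_right
      exact Finset.mem_biUnion.2 ⟨i, by simp [not_lt.1 h], hi⟩
  have h2 := (Finset.card_le_card h1).trans ((Finset.card_union_le _ _).trans
    (Nat.add_le_add_left Finset.card_biUnion_le _))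
  rw [card_grid] at h2
  have h4 : ((n ^ 5 : ℕ) : ℝ) ≤ (((AJ n K M g).card +
      ∑ i ∈ Finset.univ.filter (fun i => g ≤ i), (AA n K M i).card : ℕ) : ℝ) := by exact_mod_cast h2
  push_cast at h4
  exact h4

lemma AJ_le (hM : ∀ i, 0 < M i) (hK : Big n K) (g : Fin 5) :
    ((AJ n K M g).card : ℝ) + ∑ i ∈ Finset.univ.filter (fun i => g ≤ i), NN n K M i
      ≤ (n : ℝ) ^ 5 + 20 * (n : ℝ) ^ 4 := by
  have h0 := sum_le hM hK
  have h1 : AJ n K M g ⊆ (Finset.univ.filter (fun i => ¬ g ≤ i)).biUnion (fun i => AA n K M i) := by
    intro s hs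
    rw [AJ, Finset.mem_filter] at hs
    obtain ⟨_, j, hj, hjs⟩ := hs
    exact Finset.mem_biUnion.2 ⟨j, by simp [hj], hjs⟩
  have h2 := (Finset.card_le_card h1).trans Finset.card_biUnion_le
  have h3 : ((AJ n K M g).card : ℝ) ≤
      ((∑ i ∈ Finset.univ.filter (fun i => ¬ g ≤ i), (AA n K M i).card : ℕ) : ℝ) := by exact_mod_cast h2
  push_cast at h3
  have h4 := Finset.sum_filter_add_sum_filter_not Finset.univ (fun i => g ≤ i) (fun i => NN n K M i)
  unfold NN at *
  linarith

lemma AJ_le_grid (g : Fin 5) : ((AJ n K M g).card : ℝ) ≤ (n : ℝ) ^ 5 := by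
  have := Finset.card_le_univ (AJ n K M g)
  rw [← Finset.card_univ, card_grid] at this
  exact_mod_cast this

end

end Pool.Agent.Helper361_centerflat
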