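import Pool.Agent.Helper361_centerflat.Zero
import Pool.Agent.Helper361_centerflat.Swap

namespace Pool.Agent.Helper361_centerflat

open Finset

noncomputable section

variable {n : ℕ} {K M a b : Fin 5 → ℝ} {p : Fin 5 → Fin 5}

lemma Cfg.b_pos_of_le (h : Cfg n K a b p) {i : Fin 5} (hi : 0 < b (p i)) (j : Fin 5) (hij : i ≤ j) :
    0 < b (p j) := by
  rcases (h.b0 (p j)).lt_or_eq with h1 | h1
  · exact h1
  · have h2 := h.srt i j hij
    rw [← h1, zero_mul] at h2
    have h3 : 0 < a (p j) := by have := h.ab (p j); rw [← h1] at this; linarith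
    have h4 : 0 < b (p i) * a (p j) := mul_pos hi h3
    linarith

lemma Cfg.a_pos_of_ge (h : Cfg n K a b p) {i : Fin 5} (hi : 0 < a (p i)) (j : Fin 5) (hij : j ≤ i) :
    0 < a (p j) := by
  rcases (h.a0 (p j)).lt_or_eq with h1 | h1
  · exact h1
  · have h2 := h.srt j i hij
    rw [← h1, mul_zero] at h2
    have h3 : 0 < b (p j) := by have := h.ab (p j); rw [← h1] at this; linarith
    have h4 : 0 < b (p j) * a (p i) := mul_pos h3 hi
    linarith

/-- facts shared by the cases of the main lemma -/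
structure MData (n : ℕ) (K a b : Fin 5 → ℝ) (p : Fin 5 → Fin 5) (r2 : ℝ) (k k' l l' : Fin 5) :
    Prop where
  cfg : Cfg n K a b p
  r2pos : 0 < r2
  hkk : (k = 0 ∧ k' = 1) ∨ (k = 1 ∧ k' = 0)
  hll : (l = 3 ∧ l' = 4) ∨ (l = 4 ∧ l' = 3)
  hgh : p k < p k'
  hq : p l ≤ 1
  xt : ∀ r, 0 < r → r * b (p 1) ≤ a (p 1) → ∀ k : Fin 5, k ≤ 1 → r * b (p k) ≤ a (p k)
  yt : ∀ r, r2 ≤ r → ∀ l : Fin 5, 2 ≤ l → a (p l) ≤ r * b (p l)
  x2 : r2 * b (p 1) ≤ a (p 1)
  bpos : ∀ l : Fin 5, 2 ≤ l → 0 < b (p l)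
  apos : ∀ k : Fin 5, k ≤ 1 → 0 < a (p k)
  large : (n : ℝ) ^ 5 ≤ 200 * Q n K a b r2 (p l)
  s2 : a (p 2) = r2 * b (p 2)

namespace MData

variable {r2 : ℝ} {k k' l l' : Fin 5}

lemma hk (z : MData n K a b p r2 k k' l l') : k ≤ 1 := by
  rcases z.hkk with ⟨h, _⟩ | ⟨h, _⟩ <;> rw [h] <;> decide
lemma hk' (z : MData n K a b p r2 k k' l l') : k' ≤ 1 := by
  rcases z.hkk with ⟨_, h⟩ | ⟨_, h⟩ <;> rw [h] <;> decide
lemma hl (z : MData n K a b p r2 k k' l l') : 2 ≤ l := by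
  rcases z.hll with ⟨h, _⟩ | ⟨h, _⟩ <;> rw [h] <;> decide
lemma hl' (z : MData n K a b p r2 k k' l l') : 2 ≤ l' := by
  rcases z.hll with ⟨_, h⟩ | ⟨_, h⟩ <;> rw [h] <;> decide

lemma pair (z : MData n K a b p r2 k k' l l') {r : ℝ} (h0 : 0 < r) (h1 : r2 ≤ r)
    (h2 : r * b (p 1) ≤ a (p 1)) (i j : Fin 5) (hi : i ≤ 1) (hj : 2 ≤ j) :
    (n : ℝ) ^ 5 ≤ 3 * (Q n K a b r (p i) + Q n K a b r (p j)) :=
  z.cfg.pair h0 (z.xt r h0 h2 i hi) (z.yt r h1 j hj)

lemma mx (z : MData n K a b p r2 k k' l l') {r : ℝ} (h0 : 0 < r)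
    (h2 : r * b (p 1) ≤ a (p 1)) (i : Fin 5) (hi : i ≤ 1) :
    MM a b r (p i) = a (p i) := max_eq_left (z.xt r h0 h2 i hi)

lemma my (z : MData n K a b p r2 k k' l l') {r : ℝ} (h1 : r2 ≤ r) (j : Fin 5) (hj : 2 ≤ j) :
    MM a b r (p j) = r * b (p j) := max_eq_right (z.yt r h1 j hj)

/-- the sum in terms of the two groups -/
lemma sum5 (z : MData n K a b p r2 k k' l l') (f : Fin 5 → ℝ) :
    f 0 + f 1 + f 2 + f 3 + f 4 = f k + f k' + f 2 + f l + f l' := by
  rcases z.hkk with ⟨h1, h2⟩ | ⟨h1, h2⟩ <;> rcases z.hll with ⟨h3, h4⟩ | ⟨h3, h4⟩ <;>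
    rw [h1, h2, h3, h4] <;> ring

lemma sum_le (z : MData n K a b p r2 k k' l l') {r : ℝ} (h0 : 0 < r) :
    Q n K a b r (p k) + Q n K a b r (p k') + Q n K a b r (p 2) + Q n K a b r (p l)
      + Q n K a b r (p l') ≤ (n : ℝ) ^ 5 + 20 * (n : ℝ) ^ 4 := by
  rw [← z.sum5 (fun i => Q n K a b r (p i))]
  exact z.cfg.sum_le h0

lemma sum_ge (z : MData n K a b p r2 k k' l l') {r : ℝ} (h0 : 0 < r) :
    (n : ℝ) ^ 5 ≤ Q n K a b r (p k) + Q n K a b r (p k') + Q n K a b r (p 2) + Q n K a b r (p l)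
      + Q n K a b r (p l') := by
  rw [← z.sum5 (fun i => Q n K a b r (p i))]
  exact z.cfg.sum_ge h0

/-- cross sums at `r2` -/
lemma cross (z : MData n K a b p r2 k k' l l') :
    Q n K a b r2 (p k) + Q n K a b r2 (p l) ≤ (n : ℝ) ^ 5 / 3 + 20 * (n : ℝ) ^ 4 ∧
    Q n K a b r2 (p k') + Q n K a b r2 (p l) ≤ (n : ℝ) ^ 5 / 3 + 20 * (n : ℝ) ^ 4 := by
  have h1 := z.cfg.single z.r2pos z.s2
  have h2 := z.pair z.r2pos le_rfl z.x2 k l' z.hk z.hl'
  have h3 := z.pair z.r2pos le_rfl z.x2 k' l' z.hk' z.hl'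
  have h4 := z.sum_le z.r2pos
  constructor <;> linarith

lemma q_lt_h (z : MData n K a b p r2 k k' l l') : p l < p k' := by
  have h1 := z.hgh
  have h2 := z.hq
  have h3 : p k ≠ p l := by
    intro h
    have := z.cfg.inj h
    have h4 := z.hk
    have h5 := z.hl
    rw [this] at h4
    exact absurd (le_trans h5 h4) (by decide)
  have h3' : p k' ≠ p l := by
    intro h
    have := z.cfg.inj h
    have h4 := z.hk'
    have h5 := z.hl
    rw [this] at h4
    exact absurd (le_trans h5 h4) (by decide)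
  rw [Fin.lt_def] at *
  rw [Fin.le_def] at h2
  have h4 : (p k : ℕ) ≠ (p l : ℕ) := fun h => h3 (Fin.ext h)
  have h6 : (p k' : ℕ) ≠ (p l : ℕ) := fun h => h3' (Fin.ext h)
  have h5 : ((1 : Fin 5) : ℕ) = 1 := rfl
  omega

/-- everything about the right end of the window -/
structure RB (n : ℕ) (K a b : Fin 5 → ℝ) (p : Fin 5 → Fin 5) (r2 : ℝ) (k l : Fin 5) (rb : ℝ) :
    Prop where
  h2 : r2 ≤ rb
  hx : rb * b (p 1) ≤ a (p 1)
  hp : rb * b (p l) ≤ 12 * (K (p l) ^ n * a (p k))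
  alt : Q n K a b rb (p l) = 0 ∨ (n : ℝ) ^ 5 ≤ 3 * Q n K a b rb (p 1)

lemma exists_rb (z : MData n K a b p r2 k k' l l') : ∃ rb, RB n K a b p r2 k l rb := by
  obtain ⟨hN, he, hN0⟩ := z.cfg.big.ineq
  have ag := z.apos k z.hk
  have bq := z.bpos l z.hl
  have Kq := z.cfg.big.Kn_pos (p l)
  set rp := 12 * (K (p l) ^ n * a (p k)) / b (p l) with hrp
  have e2 : rp * b (p l) = 12 * (K (p l) ^ n * a (p k)) := by
    rw [hrp]; field_simp
  have rppos : 0 < rp := by positivity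
  have beatq : ∀ r, 0 < r → r2 ≤ r → r * b (p 1) ≤ a (p 1) → rp ≤ r → Q n K a b r (p l) = 0 := by
    intro r h0 h1 h2 h3
    apply z.cfg.beaten h0 (i := p k)
    rw [z.mx h0 h2 k z.hk, z.my h1 l z.hl, ← e2]
    exact mul_le_mul_of_nonneg_right h3 bq.le
  have r2rp : r2 ≤ rp := by
    by_contra hc
    push Not at hc
    have h1 := beatq r2 z.r2pos le_rfl z.x2 hc.le
    have h2 := z.large
    rw [h1] at h2
    linarith
  by_cases hc : rp * b (p 1) ≤ a (p 1)
  · exact ⟨rp, r2rp, hc, e2.le, Or.inl (beatq rp rppos r2rp hc le_rfl)⟩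
  · push Not at hc
    have a1 := z.apos 1 le_rfl
    have b1 : 0 < b (p 1) := by
      rcases (z.cfg.b0 (p 1)).lt_or_eq with h | h
      · exact h
      · rw [← h, mul_zero] at hc; linarith
    have e : a (p 1) / b (p 1) * b (p 1) = a (p 1) := by field_simp
    have hpos : 0 < a (p 1) / b (p 1) := by positivity
    refine ⟨a (p 1) / b (p 1), ?_, e.le, ?_, Or.inr ?_⟩
    · rw [le_div_iff₀ b1]; exact z.x2
    · rw [← e2]
      apply mul_le_mul_of_nonneg_right _ bq.le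
      rw [div_le_iff₀ b1]; exact hc.le
    · exact z.cfg.single hpos e.symm

/-- the ratio of the window -/
lemma ratio (z : MData n K a b p r2 k k' l l') {rb : ℝ} (w : RB n K a b p r2 k l rb) {r : ℝ}
    (hr : a (p k) ≤ 12 * (K (p k) ^ n * (r * b (p l)))) (i : Fin 5) (hi : p k < i) (hi' : p l < i) :
    rb ≤ K i * r := by
  have ag := z.apos k z.hk
  have bq := z.bpos l z.hl
  have Kq := z.cfg.big.Kn_pos (p l)
  have Kg := z.cfg.big.Kn_pos (p k)
  have hK := z.cfg.big.h1 (p l) (p k) i hi' hi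
  have hrpos : 0 < r := by
    by_contra hc
    push Not at hc
    have h1 : r * b (p l) ≤ 0 := mul_nonpos_of_nonpos_of_nonneg hc bq.le
    have h2 : K (p k) ^ n * (r * b (p l)) ≤ 0 := mul_nonpos_of_nonneg_of_nonpos Kg.le h1
    linarith
  have h1 : rb * b (p l) ≤ (K i * r) * b (p l) := by
    calc rb * b (p l) ≤ 12 * (K (p l) ^ n * a (p k)) := w.hp
      _ ≤ 12 * (K (p l) ^ n * (12 * (K (p k) ^ n * (r * b (p l))))) := by gcongr
      _ = 144 * (K (p l) ^ n * K (p k) ^ n) * (r * b (p l)) := by ring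
      _ ≤ K i * (r * b (p l)) := by
          apply mul_le_mul_of_nonneg_right _ (by positivity)
          have : 0 < K (p l) ^ n * K (p k) ^ n := by positivity
          linarith
      _ = (K i * r) * b (p l) := by ring
  exact le_of_mul_le_mul_right h1 bq

lemma caseA (z : MData n K a b p r2 k k' l l') {rb : ℝ} (w : RB n K a b p r2 k l rb)
    (hc : 12 * (K (p k) ^ n * (r2 * b (p l))) ≤ a (p k)) : False := by
  obtain ⟨hN, he, hN0⟩ := z.cfg.big.ineq
  have ag := z.apos k z.hk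
  have bq := z.bpos l z.hl
  have Kg := z.cfg.big.Kn_pos (p k)
  set rm := a (p k) / (12 * (K (p k) ^ n * b (p l))) with hrm
  have e1 : 12 * (K (p k) ^ n * (rm * b (p l))) = a (p k) := by
    rw [hrm]; field_simp
  have rmpos : 0 < rm := by positivity
  have r2rm : r2 ≤ rm := by
    rw [hrm, le_div_iff₀ (by positivity)]
    linarith
  set ra := min rm rb with hra
  have r2ra : r2 ≤ ra := le_min r2rm w.h2
  have ra0 : 0 < ra := lt_of_lt_of_le z.r2pos r2ra
  have rarb : ra ≤ rb := min_le_right _ _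
  have hxa : ra * b (p 1) ≤ a (p 1) :=
    (mul_le_mul_of_nonneg_right rarb (z.cfg.b0 _)).trans w.hx
  have hg0 : Q n K a b ra (p k) = 0 := by
    apply z.cfg.beaten ra0 (i := p l)
    rw [z.mx ra0 hxa k z.hk, z.my r2ra l z.hl]
    have h1 : ra * b (p l) ≤ rm * b (p l) := mul_le_mul_of_nonneg_right (min_le_left _ _) bq.le
    have h2 : K (p k) ^ n * (ra * b (p l)) ≤ K (p k) ^ n * (rm * b (p l)) :=
      mul_le_mul_of_nonneg_left h1 Kg.le
    linarith
  have p2 := z.pair ra0 r2ra hxa k 2 z.hk le_rfl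
  have pl := z.pair ra0 r2ra hxa k l z.hk z.hl
  have pl' := z.pair ra0 r2ra hxa k l' z.hk z.hl'
  rw [hg0] at p2 pl pl'
  have hs := z.sum_le ra0
  rw [hg0] at hs
  have hh : Q n K a b ra (p k') ≤ 20 * (n : ℝ) ^ 4 := by linarith
  have hsh : Q n K a b rb (p k') ≤ Q n K a b ra (p k') + (n : ℝ) ^ 4 := by
    refine (z.cfg.shift ra0 rarb (p k') ?_).1
    rcases le_total rm rb with h | h
    · have : ra = rm := min_eq_left h
      rw [this]
      exact z.ratio w e1.ge (p k') z.hgh z.q_lt_h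
    · have : ra = rb := min_eq_right h
      rw [this]
      have h1 := z.cfg.big.one_le_K (p k')
      have h2 : 0 < rb := lt_of_lt_of_le z.r2pos w.h2
      nlinarith
  have rb0 : 0 < rb := lt_of_lt_of_le z.r2pos w.h2
  have q2 := z.pair rb0 w.h2 w.hx k' 2 z.hk' le_rfl
  have ql := z.pair rb0 w.h2 w.hx k' l z.hk' z.hl
  have ql' := z.pair rb0 w.h2 w.hx k' l' z.hk' z.hl'
  rcases w.alt with h | h
  · rw [h] at ql
    linarith
  · have hs' := z.sum_le rb0
    rcases z.hkk with ⟨h1, h2⟩ | ⟨h1, h2⟩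
    · rw [h2] at hsh hh
      linarith
    · rw [h1] at hs'
      linarith

lemma caseB (z : MData n K a b p r2 k k' l l') {rb : ℝ} (w : RB n K a b p r2 k l rb)
    (hc : a (p k) ≤ 12 * (K (p k) ^ n * (r2 * b (p l)))) : False := by
  obtain ⟨hN, he, hN0⟩ := z.cfg.big.ineq
  have rb0 : 0 < rb := lt_of_lt_of_le z.r2pos w.h2
  have hh := (z.cfg.shift z.r2pos w.h2 (p k') (z.ratio w hc (p k') z.hgh z.q_lt_h)).1
  obtain ⟨c1, c2⟩ := z.cross
  have hY := z.large
  have ql := z.pair rb0 w.h2 w.hx k' l z.hk' z.hl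
  have hnq : Q n K a b rb (p l) ≠ 0 := by
    intro h
    rw [h] at ql
    linarith
  have h1N : (n : ℝ) ^ 5 ≤ 3 * Q n K a b rb (p 1) := by
    rcases w.alt with h | h
    · exact absurd h hnq
    · exact h
  have hk1 : k = 1 ∧ k' = 0 := by
    rcases z.hkk with ⟨h1, h2⟩ | h
    · exfalso
      rw [h2] at hh c2
      linarith
    · exact h
  have hg3 : (n : ℝ) ^ 5 ≤ 3 * Q n K a b rb (p k) := by rw [hk1.1]; exact h1N
  have hqb : Q n K a b r2 (p l) - 21 * (n : ℝ) ^ 4 ≤ Q n K a b rb (p l) := by linarith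
  -- indices above both g and q hardly change
  have stable : ∀ i : Fin 5, p k < i → p l < i →
      Q n K a b r2 i ≤ Q n K a b rb i + (n : ℝ) ^ 4 := by
    intro i hi hi'
    exact (z.cfg.shift z.r2pos w.h2 i (z.ratio w hc i hi hi')).2
  have hsge := z.sum_ge z.r2pos
  have hsle := z.sum_le rb0
  rcases le_or_gt (p k) 1 with hg | hg
  · -- g ≤ 1
    have other : ∀ j, j ≠ k → j ≠ l → (p k < p j ∧ p l < p j) := by
      intro j hj1 hj2
      have h1 : p j ≠ p k := fun h => hj1 (z.cfg.inj h)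
      have h2 : p j ≠ p l := fun h => hj2 (z.cfg.inj h)
      have h3 : p k ≠ p l := by
        intro h
        have := z.cfg.inj h
        have h4 := z.hk
        have h5 := z.hl
        rw [this] at h4
        exact absurd (le_trans h5 h4) (by decide)
      have h4 := z.hq
      rw [Fin.lt_def, Fin.lt_def]
      rw [Fin.le_def] at h4 hg
      have h5 : ((1 : Fin 5) : ℕ) = 1 := rfl
      have h6 : (p j : ℕ) ≠ (p k : ℕ) := fun h => h1 (Fin.ext h)
      have h7 : (p j : ℕ) ≠ (p l : ℕ) := fun h => h2 (Fin.ext h)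
      have h8 : (p k : ℕ) ≠ (p l : ℕ) := fun h => h3 (Fin.ext h)
      omega
    have o1 := other k' (by rw [hk1.1, hk1.2]; decide)
      (by rw [hk1.2]; rcases z.hll with ⟨h, _⟩ | ⟨h, _⟩ <;> rw [h] <;> decide)
    have o2 := other 2 (by rw [hk1.1]; decide)
      (by rcases z.hll with ⟨h, _⟩ | ⟨h, _⟩ <;> rw [h] <;> decide)
    have o3 := other l' (by rw [hk1.1]; rcases z.hll with ⟨_, h⟩ | ⟨_, h⟩ <;> rw [h] <;> decide)
      (by rcases z.hll with ⟨h, h'⟩ | ⟨h, h'⟩ <;> rw [h, h'] <;> decide)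
    have s1 := stable _ o1.1 o1.2
    have s2 := stable _ o2.1 o2.2
    have s3 := stable _ o3.1 o3.2
    linarith
  · -- g ≥ 2
    have hqg : p l < p k := lt_of_le_of_lt z.hq hg
    have hJ : ∀ j, j < p k → ∃ m, 2 ≤ m ∧ p m = j := by
      intro j hj
      obtain ⟨m, hm⟩ := Finite.injective_iff_surjective.1 z.cfg.inj j
      refine ⟨m, ?_, hm⟩
      have h1 : m ≠ k := by intro h; rw [← hm, h] at hj; exact absurd hj (lt_irrefl _)
      have h2 : m ≠ k' := by
        intro h; rw [← hm, h] at hj; exact absurd (lt_trans hj z.hgh) (lt_irrefl _)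
      rw [hk1.1] at h1
      rw [hk1.2] at h2
      have h3 : ∀ m : Fin 5, m ≠ 1 → m ≠ 0 → 2 ≤ m := by decide
      exact h3 m h1 h2
    have eM : ∀ r, r2 ≤ r → ∀ j, j < p k → MM a b r j = r * b j := by
      intro r hr j hj
      obtain ⟨m, hm, hmj⟩ := hJ j hj
      rw [← hmj]
      exact z.my hr m hm
    have hb : ∀ j, j < p k → 0 < b j := by
      intro j hj
      obtain ⟨m, hm, hmj⟩ := hJ j hj
      rw [← hmj]
      exact z.bpos m hm
    have hMpos : ∀ i, 0 < MM a b r2 i := fun i => z.cfg.MM_pos z.r2pos i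
    have hMpos' : ∀ i, 0 < MM a b rb i := fun i => z.cfg.MM_pos rb0 i
    have hsw := swap z.cfg.big hqg z.r2pos rb0 hb hMpos hMpos' (eM r2 le_rfl) (eM rb w.h2)
    have hge := AJ_ge hMpos z.cfg.big (p k)
    have hle := AJ_le hMpos' z.cfg.big (p k)
    have hgrid := AJ_le_grid (n := n) (K := K) (M := MM a b r2) (p k)
    have hsplit : ∀ f : Fin 5 → ℝ, ∑ i ∈ Finset.univ.filter (fun i => p k ≤ i), f i
        = f (p k) + ∑ i ∈ Finset.univ.filter (fun i => p k < i), f i := by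
      intro f
      rw [← Finset.sum_erase_add _ _ (show p k ∈ Finset.univ.filter (fun i => p k ≤ i) by simp)]
      rw [add_comm]
      congr 1
      apply Finset.sum_congr _ (fun _ _ => rfl)
      ext i
      simp only [Finset.mem_erase, Finset.mem_filter, Finset.mem_univ, true_and]
      constructor
      · rintro ⟨h1, h2⟩; exact lt_of_le_of_ne h2 (Ne.symm h1)
      · intro h; exact ⟨ne_of_gt h, h.le⟩
    rw [hsplit] at hge hle
    have hst : ∑ i ∈ Finset.univ.filter (fun i => p k < i), NN n K (MM a b r2) i ≤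
        ∑ i ∈ Finset.univ.filter (fun i => p k < i), NN n K (MM a b rb) i + 5 * (n : ℝ) ^ 4 := by
      calc ∑ i ∈ Finset.univ.filter (fun i => p k < i), NN n K (MM a b r2) i
          ≤ ∑ i ∈ Finset.univ.filter (fun i => p k < i), (NN n K (MM a b rb) i + (n : ℝ) ^ 4) := by
            apply Finset.sum_le_sum
            intro i hi
            have hi' : p k < i := (Finset.mem_filter.1 hi).2
            exact stable i hi' (lt_trans hqg hi')
        _ = ∑ i ∈ Finset.univ.filter (fun i => p k < i), NN n K (MM a b rb) i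
            + ((Finset.univ.filter (fun i => p k < i)).card : ℝ) * (n : ℝ) ^ 4 := by
            rw [Finset.sum_add_distrib, Finset.sum_const, nsmul_eq_mul]
        _ ≤ ∑ i ∈ Finset.univ.filter (fun i => p k < i), NN n K (MM a b rb) i
            + 5 * (n : ℝ) ^ 4 := by
            have h1 : ((Finset.univ.filter (fun i => p k < i)).card : ℝ) ≤ 5 := by
              have h2 := Finset.card_filter_le (Finset.univ : Finset (Fin 5)) (fun i => p k < i)
              rw [Finset.card_univ, Fintype.card_fin] at h2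
              exact_mod_cast h2
            have := mul_le_mul_of_nonneg_right h1 he.le
            linarith
    have hsw' : Q n K a b rb (p l) * ((AJ n K (MM a b r2) (p k)).card : ℝ) ≤
        Q n K a b r2 (p l) * ((AJ n K (MM a b rb) (p k)).card : ℝ) + 10 * (n : ℝ) ^ 9 := by
      unfold Q NN
      exact_mod_cast hsw
    set X := ((AJ n K (MM a b r2) (p k)).card : ℝ) with hX
    set X' := ((AJ n K (MM a b rb) (p k)).card : ℝ) with hX'
    set Y := Q n K a b r2 (p l) with hYd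
    have hX0 : 0 ≤ X := by rw [hX]; positivity
    have eg : NN n K (MM a b r2) (p k) = Q n K a b r2 (p k) := rfl
    have eg' : NN n K (MM a b rb) (p k) = Q n K a b rb (p k) := rfl
    rw [eg] at hge
    rw [eg'] at hle
    have hX'X : X' ≤ X - Y + 45 * (n : ℝ) ^ 4 := by linarith
    have hY0 : 0 < Y := by linarith
    have hYN : Y ≤ (n : ℝ) ^ 5 := by
      have := Q_nonneg (n := n) (K := K) (a := a) (b := b) r2 (p k)
      linarith
    have f1 : (Y - 21 * (n : ℝ) ^ 4) * X ≤ Q n K a b rb (p l) * X :=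
      mul_le_mul_of_nonneg_right hqb hX0
    have f2 : Y * X' ≤ Y * (X - Y + 45 * (n : ℝ) ^ 4) := mul_le_mul_of_nonneg_left hX'X hY0.le
    have f3 : Y * Y ≤ 21 * (n : ℝ) ^ 4 * X + 45 * (n : ℝ) ^ 4 * Y + 10 * (n : ℝ) ^ 9 := by
      nlinarith
    have f4 : 21 * (n : ℝ) ^ 4 * X ≤ 21 * (n : ℝ) ^ 9 := by
      calc 21 * (n : ℝ) ^ 4 * X ≤ 21 * (n : ℝ) ^ 4 * (n : ℝ) ^ 5 :=
            mul_le_mul_of_nonneg_left hgrid (by positivity)
        _ = 21 * (n : ℝ) ^ 9 := by ring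
    have f5 : 45 * (n : ℝ) ^ 4 * Y ≤ 45 * (n : ℝ) ^ 9 := by
      calc 45 * (n : ℝ) ^ 4 * Y ≤ 45 * (n : ℝ) ^ 4 * (n : ℝ) ^ 5 :=
            mul_le_mul_of_nonneg_left hYN (by positivity)
        _ = 45 * (n : ℝ) ^ 9 := by ring
    have f6 : Y * Y ≤ 76 * (n : ℝ) ^ 9 := by linarith
    have f7 : (n : ℝ) ^ 5 / 200 * ((n : ℝ) ^ 5 / 200) ≤ Y * Y := by
      have : (n : ℝ) ^ 5 / 200 ≤ Y := by linarith
      exact mul_le_mul this this (by positivity) hY0.le
    have f8 : (n : ℝ) ^ 5 / 200 * ((n : ℝ) ^ 5 / 200) = (n : ℝ) ^ 9 * n / 40000 := by ring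
    have hn7 : (10 : ℝ) ^ 7 ≤ n := by exact_mod_cast z.cfg.big.hn
    have hnpos : (0 : ℝ) < (n : ℝ) ^ 9 := by
      have : (0 : ℝ) < n := by linarith [show (0:ℝ) < 10 ^ 7 by norm_num]
      positivity
    have f9 : (n : ℝ) ^ 9 * 10 ^ 7 ≤ (n : ℝ) ^ 9 * n := mul_le_mul_of_nonneg_left hn7 hnpos.le
    rw [f8] at f7
    linarith

end MData

/-- the main lemma -/
theorem Cfg.main (h : Cfg n K a b p) {r2 : ℝ} (hr2 : 0 < r2) (hs : a (p 2) = r2 * b (p 2))
    (hb2 : 0 < b (p 2)) (ha1 : 0 < a (p 1)) (l l' : Fin 5)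
    (hll : (l = 3 ∧ l' = 4) ∨ (l = 4 ∧ l' = 3)) (hq : p l ≤ 1)
    (hY : (n : ℝ) ^ 5 ≤ 200 * Q n K a b r2 (p l)) : False := by
  have bpos : ∀ l : Fin 5, 2 ≤ l → 0 < b (p l) := fun l hl => h.b_pos_of_le hb2 l hl
  have apos : ∀ k : Fin 5, k ≤ 1 → 0 < a (p k) := fun k hk => h.a_pos_of_ge ha1 k hk
  have xt : ∀ r, 0 < r → r * b (p 1) ≤ a (p 1) → ∀ k : Fin 5, k ≤ 1 → r * b (p k) ≤ a (p k) := by
    intro r hr h1 k hk
    have h2 := h.srt k 1 hk
    have h3 : (r * b (p k)) * a (p 1) ≤ a (p k) * a (p 1) := by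
      calc (r * b (p k)) * a (p 1) = r * (b (p k) * a (p 1)) := by ring
        _ ≤ r * (b (p 1) * a (p k)) := mul_le_mul_of_nonneg_left h2 hr.le
        _ = (r * b (p 1)) * a (p k) := by ring
        _ ≤ a (p 1) * a (p k) := mul_le_mul_of_nonneg_right h1 (h.a0 _)
        _ = a (p k) * a (p 1) := by ring
    exact le_of_mul_le_mul_right h3 ha1
  have yt : ∀ r, r2 ≤ r → ∀ l : Fin 5, 2 ≤ l → a (p l) ≤ r * b (p l) := by
    intro r hr l hl
    have h2 := h.srt 2 l hl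
    rw [hs] at h2
    have h3 : a (p l) * b (p 2) ≤ (r2 * b (p l)) * b (p 2) := by
      calc a (p l) * b (p 2) = b (p 2) * a (p l) := by ring
        _ ≤ b (p l) * (r2 * b (p 2)) := h2
        _ = (r2 * b (p l)) * b (p 2) := by ring
    have h4 := le_of_mul_le_mul_right h3 hb2
    exact h4.trans (mul_le_mul_of_nonneg_right hr (h.b0 _))
  have x2 : r2 * b (p 1) ≤ a (p 1) := by
    have h2 := h.srt 1 2 (by decide)
    rw [hs] at h2
    have h3 : (r2 * b (p 1)) * b (p 2) ≤ a (p 1) * b (p 2) := by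
      calc (r2 * b (p 1)) * b (p 2) = b (p 1) * (r2 * b (p 2)) := by ring
        _ ≤ b (p 2) * a (p 1) := h2
        _ = a (p 1) * b (p 2) := by ring
    exact le_of_mul_le_mul_right h3 hb2
  have hne : p 0 ≠ p 1 := fun h0 => absurd (h.inj h0) (by decide)
  have fin : ∀ k k' : Fin 5, MData n K a b p r2 k k' l l' → False := by
    intro k k' z
    obtain ⟨rb, w⟩ := z.exists_rb
    rcases le_total (12 * (K (p k) ^ n * (r2 * b (p l)))) (a (p k)) with hc | hc
    · exact z.caseA w hc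
    · exact z.caseB w hc
  rcases lt_or_gt_of_ne hne with h01 | h01
  · exact fin 0 1 ⟨h, hr2, Or.inl ⟨rfl, rfl⟩, hll, h01, hq, xt, yt, x2, bpos, apos, hY, hs⟩
  · exact fin 1 0 ⟨h, hr2, Or.inr ⟨rfl, rfl⟩, hll, h01, hq, xt, yt, x2, bpos, apos, hY, hs⟩

end

end Pool.Agent.Helper361_centerflat
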