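import Pool.Agent.Helper361_centerflat.Basic

namespace Pool.Agent.Helper361_centerflat

open Finset

noncomputable section

/-- the weights at parameter `r` -/
def MM (a b : Fin 5 → ℝ) (r : ℝ) (i : Fin 5) : ℝ := max (a i) (r * b i)

/-- every nonzero vector orthogonal to `a` and `b` is nonnegative at a third of the grid points -/
def Good (n : ℕ) (K a b : Fin 5 → ℝ) : Prop :=
  ∀ u : Fin 5 → ℝ, u ≠ 0 → ∑ i, u i * a i = 0 → ∑ i, u i * b i = 0 →
    (n : ℝ) ^ 5 ≤ 3 * ((Finset.univ.filter
      (fun s : Fin 5 → Fin n => 0 ≤ ∑ i, u i * xx K s i)).card : ℝ)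

/-- normalised data of a good line -/
structure Cfg (n : ℕ) (K a b : Fin 5 → ℝ) (p : Fin 5 → Fin 5) : Prop where
  big : Big n K
  inj : Function.Injective p
  a0 : ∀ i, 0 ≤ a i
  b0 : ∀ i, 0 ≤ b i
  ab : ∀ i, 0 < a i + b i
  hb : b (p 0) = 0
  ha : a (p 4) = 0
  srt : ∀ i j, i ≤ j → b (p i) * a (p j) ≤ b (p j) * a (p i)
  good : Good n K a b

variable {n : ℕ} {K M a b : Fin 5 → ℝ} {p : Fin 5 → Fin 5}

lemma core (hM : ∀ i, 0 < M i) (hK : Big n K) (v : Fin 5 → ℝ) (c d : Fin 5)
    (hneg : ∀ i, i ≠ c → i ≠ d → v i ≤ -1) (hc : v c ≤ 6) (hd : v d ≤ 6) (s : Fin 5 → Fin n)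
    (hs : 0 ≤ ∑ i, v i / M i * xx K s i) : s ∈ AA n K M c ∪ AA n K M d := by
  set y : Fin 5 → ℝ := fun i => xx K s i / M i with hy
  have ypos : ∀ i, 0 < y i := fun i => div_pos (hK.xx_pos s i) (hM i)
  have hs' : 0 ≤ ∑ i, v i * y i := by
    have : ∑ i, v i / M i * xx K s i = ∑ i, v i * y i := by
      apply Finset.sum_congr rfl
      intro i _
      simp only [hy]; ring
    rwa [this] at hs
  have aux : ∀ j, j ≠ c → j ≠ d → y j ≤ 6 * y c + 6 * y d := by
    intro j hjc hjd
    have h1 : ∑ i, v i * y i ≤ ∑ i, ((if i = c then 6 * y c else 0) + (if i = d then 6 * y d else 0)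
        - (if i = j then y j else 0)) := by
      apply Finset.sum_le_sum
      intro i _
      have hyi := ypos i
      have hyc := ypos c
      have hyd := ypos d
      by_cases h1 : i = c
      · subst h1
        rw [if_pos rfl, if_neg (Ne.symm hjc)]
        have h3 : v i * y i ≤ 6 * y i := mul_le_mul_of_nonneg_right hc hyi.le
        split_ifs <;> linarith
      · by_cases h2 : i = d
        · subst h2
          rw [if_neg h1, if_pos rfl, if_neg (Ne.symm hjd)]
          have h3 : v i * y i ≤ 6 * y i := mul_le_mul_of_nonneg_right hd hyi.le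
          linarith
        · rw [if_neg h1, if_neg h2]
          have h3 : v i * y i ≤ -1 * y i := mul_le_mul_of_nonneg_right (hneg i h1 h2) hyi.le
          by_cases h4 : i = j
          · subst h4; rw [if_pos rfl]; linarith
          · rw [if_neg h4]; linarith
    rw [Finset.sum_sub_distrib, Finset.sum_add_distrib, Finset.sum_ite_eq' Finset.univ c,
      Finset.sum_ite_eq' Finset.univ d, Finset.sum_ite_eq' Finset.univ j] at h1
    simp only [Finset.mem_univ, if_true] at h1
    linarith
  have key : ∀ c d : Fin 5, (∀ j, j ≠ c → j ≠ d → y j ≤ 6 * y c + 6 * y d) → y d ≤ y c →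
      s ∈ AA n K M c := by
    intro c d haux hcd
    rw [mem_AA]
    intro j
    have h1 : y j ≤ 12 * y c := by
      by_cases h1 : j = c
      · rw [h1]; linarith [ypos c]
      · by_cases h2 : j = d
        · rw [h2]; linarith [ypos c]
        · linarith [haux j h1 h2]
    simp only [hy] at h1
    rw [div_le_iff₀ (hM j)] at h1
    have h2 : 12 * (xx K s c / M c) * M j * M c = 12 * (xx K s c * M j) := by
      field_simp [(hM c).ne']
    rw [← h2]
    exact mul_le_mul_of_nonneg_right h1 (hM c).le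
  rcases le_total (y d) (y c) with h | h
  · exact Finset.mem_union_left _ (key c d aux h)
  · refine Finset.mem_union_right _ (key d c ?_ h)
    intro j h1 h2
    linarith [aux j h2 h1]

lemma Cfg.MM_pos (h : Cfg n K a b p) {r : ℝ} (hr : 0 < r) (i : Fin 5) : 0 < MM a b r i := by
  unfold MM
  have h1 := h.ab i
  rcases lt_or_ge 0 (a i) with h2 | h2
  · exact lt_max_of_lt_left h2
  · apply lt_max_of_lt_right
    have h3 := h.a0 i
    have : 0 < b i := by linarith
    positivity

lemma exists_two (k k' : ℝ) (h0 : 0 ≤ k) (h1 : k ≤ 1) (h0' : 0 ≤ k') (h1' : k' ≤ 1) :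
    ∃ c1 c2 : ℝ, 0 ≤ c1 ∧ 0 ≤ c2 ∧ c1 ≤ 5 ∧ c2 ≤ 5 ∧ c1 + c2 * k' = 5 ∧ c1 * k + c2 = 5 := by
  by_cases h : k * k' = 1
  · have hk : k = 1 := by nlinarith
    have hk' : k' = 1 := by nlinarith
    refine ⟨5 / 2, 5 / 2, ?_⟩
    subst hk hk'
    norm_num
  · have h2 : k * k' < 1 := lt_of_le_of_ne (by nlinarith) h
    have h3 : 0 < 1 - k * k' := by linarith
    refine ⟨5 * (1 - k') / (1 - k * k'), 5 * (1 - k) / (1 - k * k'), ?_, ?_, ?_, ?_, ?_, ?_⟩
    · exact div_nonneg (by linarith) h3.le
    · exact div_nonneg (by linarith) h3.le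
    · rw [div_le_iff₀ h3]; nlinarith
    · rw [div_le_iff₀ h3]; nlinarith
    · have h4 : 1 - k * k' ≠ 0 := h3.ne'
      have h5 : 5 * (1 - k') / (1 - k * k') + 5 * (1 - k) / (1 - k * k') * k'
          = (5 * (1 - k * k')) / (1 - k * k') := by ring
      rw [h5, mul_div_assoc, div_self h4, mul_one]
    · have h4 : 1 - k * k' ≠ 0 := h3.ne'
      have h5 : 5 * (1 - k') / (1 - k * k') * k + 5 * (1 - k) / (1 - k * k')
          = (5 * (1 - k * k')) / (1 - k * k') := by ring
      rw [h5, mul_div_assoc, div_self h4, mul_one]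

lemma exists_other (c d : Fin 5) : ∃ i, i ≠ c ∧ i ≠ d := by
  revert c d; decide

/-- the only family of half-spaces used: an x-type index and a y-type index -/
lemma Cfg.pair_union (h : Cfg n K a b p) {r : ℝ} (hr : 0 < r) {c d : Fin 5}
    (hx : r * b c ≤ a c) (hy : a d ≤ r * b d) :
    (n : ℝ) ^ 5 ≤ 3 * ((AA n K (MM a b r) c ∪ AA n K (MM a b r) d).card : ℝ) := by
  set M := MM a b r with hMdef
  have hM : ∀ i, 0 < M i := fun i => h.MM_pos hr i
  set A : Fin 5 → ℝ := fun i => a i / M i with hA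
  set B : Fin 5 → ℝ := fun i => r * b i / M i with hB
  have A0 : ∀ i, 0 ≤ A i := fun i => div_nonneg (h.a0 i) (hM i).le
  have A1 : ∀ i, A i ≤ 1 := fun i => by
    simp only [hA]; rw [div_le_one (hM i)]; exact le_max_left _ _
  have B0 : ∀ i, 0 ≤ B i := fun i => div_nonneg (mul_nonneg hr.le (h.b0 i)) (hM i).le
  have B1 : ∀ i, B i ≤ 1 := fun i => by
    simp only [hB]; rw [div_le_one (hM i)]; exact le_max_right _ _
  have Ac : A c = 1 := by
    have : M c = a c := max_eq_left hx
    simp only [hA]; rw [this]; apply div_self; rw [← this]; exact (hM c).ne'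
  have Bd : B d = 1 := by
    have : M d = r * b d := max_eq_right hy
    simp only [hB]; rw [this]; apply div_self; rw [← this]; exact (hM d).ne'
  have hMe : M (p 0) = a (p 0) := by
    simp only [hMdef, MM]; rw [h.hb, mul_zero]; exact max_eq_left (h.a0 _)
  have hMe' : M (p 4) = r * b (p 4) := by
    simp only [hMdef, MM]; rw [h.ha]; exact max_eq_right (mul_nonneg hr.le (h.b0 _))
  have Ae : A (p 0) = 1 := by
    simp only [hA]; rw [hMe]; apply div_self; rw [← hMe]; exact (hM _).ne'
  have Be : B (p 0) = 0 := by simp only [hB]; rw [h.hb]; simp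
  have Ae' : A (p 4) = 0 := by simp only [hA]; rw [h.ha]; simp
  have Be' : B (p 4) = 1 := by
    simp only [hB]; rw [hMe']; apply div_self; rw [← hMe']; exact (hM _).ne'
  obtain ⟨c1, c2, hc1, hc2, hc1', hc2', e1, e2⟩ := exists_two (B c) (A d) (B0 c) (B1 c) (A0 d) (A1 d)
  set SA := ∑ i, A i with hSA
  set SB := ∑ i, B i with hSB
  have SA5 : SA ≤ 5 := by
    calc SA ≤ ∑ i : Fin 5, (1 : ℝ) := Finset.sum_le_sum fun i _ => A1 i
      _ = 5 := by simp
  have SB5 : SB ≤ 5 := by
    calc SB ≤ ∑ i : Fin 5, (1 : ℝ) := Finset.sum_le_sum fun i _ => B1 i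
      _ = 5 := by simp
  set v : Fin 5 → ℝ := fun i => -1 + (if i = c then c1 else 0) + (if i = d then c2 else 0)
    + (if i = p 0 then (SA - 5) else 0) + (if i = p 4 then (SB - 5) else 0) with hv
  have hsum : ∀ f : Fin 5 → ℝ, ∑ i, v i * f i
      = - (∑ i, f i) + c1 * f c + c2 * f d + (SA - 5) * f (p 0) + (SB - 5) * f (p 4) := by
    intro f
    have : ∀ i, v i * f i = - f i + (if i = c then c1 * f c else 0) + (if i = d then c2 * f d else 0)
        + (if i = p 0 then (SA - 5) * f (p 0) else 0) + (if i = p 4 then (SB - 5) * f (p 4) else 0) := by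
      intro i
      simp only [hv]
      have e : ∀ (j : Fin 5) (t : ℝ), (if i = j then t else 0) * f i = (if i = j then t * f j else 0) := by
        intro j t
        by_cases hij : i = j
        · rw [if_pos hij, if_pos hij, hij]
        · rw [if_neg hij, if_neg hij, zero_mul]
      rw [add_mul, add_mul, add_mul, add_mul, e, e, e, e]
      ring
    rw [Finset.sum_congr rfl fun i _ => this i]
    rw [Finset.sum_add_distrib, Finset.sum_add_distrib, Finset.sum_add_distrib, Finset.sum_add_distrib,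
      Finset.sum_ite_eq' Finset.univ c, Finset.sum_ite_eq' Finset.univ d,
      Finset.sum_ite_eq' Finset.univ (p 0), Finset.sum_ite_eq' Finset.univ (p 4), Finset.sum_neg_distrib]
    simp
  have hvA : ∑ i, v i * A i = 0 := by
    rw [hsum A, Ac, Ae, Ae', ← hSA]; linarith
  have hvB : ∑ i, v i * B i = 0 := by
    rw [hsum B, Bd, Be, Be', ← hSB]; linarith
  have vneg : ∀ i, i ≠ c → i ≠ d → v i ≤ -1 := by
    intro i h1 h2
    simp only [hv]
    rw [if_neg h1, if_neg h2]
    split_ifs <;> linarith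
  have vc : v c ≤ 6 := by
    simp only [hv, if_true]
    by_cases hcd : c = d
    · subst hcd
      simp only [if_true]
      rw [Ac] at e1
      split_ifs <;> linarith
    · rw [if_neg hcd]
      split_ifs <;> linarith
  have vd : v d ≤ 6 := by
    simp only [hv, if_true]
    by_cases hcd : d = c
    · subst hcd
      simp only [if_true]
      rw [Ac] at e1
      split_ifs <;> linarith
    · rw [if_neg hcd]
      split_ifs <;> linarith
  have hu := h.good (fun i => v i / M i) (by
    obtain ⟨i, hi1, hi2⟩ := exists_other c d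
    intro h0
    have h1 := congrFun h0 i
    simp only [Pi.zero_apply] at h1
    have h2 : v i < 0 := by linarith [vneg i hi1 hi2]
    have h3 : v i / M i < 0 := div_neg_of_neg_of_pos h2 (hM i)
    linarith) (by
    rw [← hvA]
    apply Finset.sum_congr rfl
    intro i _
    simp only [hA]; ring) (by
    have h1 : ∑ i, v i / M i * b i = (1 / r) * ∑ i, v i * B i := by
      rw [Finset.mul_sum]
      apply Finset.sum_congr rfl
      intro i _
      simp only [hB]; field_simp
    rw [h1, hvB, mul_zero])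
  refine hu.trans ?_
  have hsub : (Finset.univ.filter (fun s : Fin 5 → Fin n => 0 ≤ ∑ i, v i / M i * xx K s i)) ⊆
      AA n K M c ∪ AA n K M d := by
    intro s hs
    exact core hM h.big v c d vneg vc vd s (Finset.mem_filter.1 hs).2
  have hcard : ((Finset.univ.filter (fun s : Fin 5 → Fin n => 0 ≤ ∑ i, v i / M i * xx K s i)).card : ℝ)
      ≤ ((AA n K M c ∪ AA n K M d).card : ℝ) := by
    exact_mod_cast Finset.card_le_card hsub
  linarith

/-- counts at parameter `r` -/
def Q (n : ℕ) (K a b : Fin 5 → ℝ) (r : ℝ) (i : Fin 5) : ℝ := NN n K (MM a b r) i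

lemma Cfg.pair (h : Cfg n K a b p) {r : ℝ} (hr : 0 < r) {c d : Fin 5}
    (hx : r * b c ≤ a c) (hy : a d ≤ r * b d) :
    (n : ℝ) ^ 5 ≤ 3 * (Q n K a b r c + Q n K a b r d) := by
  have h1 := h.pair_union hr hx hy
  have h2 : ((AA n K (MM a b r) c ∪ AA n K (MM a b r) d).card : ℝ) ≤
      Q n K a b r c + Q n K a b r d := by
    unfold Q NN
    exact_mod_cast Finset.card_union_le _ _
  linarith

lemma Cfg.single (h : Cfg n K a b p) {r : ℝ} (hr : 0 < r) {c : Fin 5}
    (hx : a c = r * b c) : (n : ℝ) ^ 5 ≤ 3 * Q n K a b r c := by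
  have h1 := h.pair_union hr (c := c) (d := c) hx.ge hx.le
  rw [Finset.union_self] at h1
  exact h1

lemma Cfg.sum_le (h : Cfg n K a b p) {r : ℝ} (hr : 0 < r) :
    Q n K a b r (p 0) + Q n K a b r (p 1) + Q n K a b r (p 2) + Q n K a b r (p 3)
      + Q n K a b r (p 4) ≤ (n : ℝ) ^ 5 + 20 * (n : ℝ) ^ 4 := by
  have h1 := Helper361_centerflat.sum_le (M := MM a b r) (fun i => h.MM_pos hr i) h.big
  have h2 : ∑ i, NN n K (MM a b r) i = ∑ k, NN n K (MM a b r) (p k) :=
    (Equiv.sum_comp (Equiv.ofBijective p (Finite.injective_iff_bijective.1 h.inj))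
      (fun i => NN n K (MM a b r) i)).symm
  rw [h2, Fin.sum_univ_five] at h1
  exact h1

lemma Cfg.sum_ge (h : Cfg n K a b p) {r : ℝ} (hr : 0 < r) :
    (n : ℝ) ^ 5 ≤ Q n K a b r (p 0) + Q n K a b r (p 1) + Q n K a b r (p 2) + Q n K a b r (p 3)
      + Q n K a b r (p 4) := by
  have h1 := Helper361_centerflat.sum_ge (M := MM a b r) (fun i => h.MM_pos hr i) h.big
  have h2 : ∑ i, NN n K (MM a b r) i = ∑ k, NN n K (MM a b r) (p k) :=
    (Equiv.sum_comp (Equiv.ofBijective p (Finite.injective_iff_bijective.1 h.inj))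
      (fun i => NN n K (MM a b r) i)).symm
  rw [h2, Fin.sum_univ_five] at h1
  exact h1

lemma Q_nonneg (r : ℝ) (i : Fin 5) : 0 ≤ Q n K a b r i := NN_nonneg i

/-- shift inequality in `r`, both directions -/
lemma Cfg.shift (h : Cfg n K a b p) {r r' : ℝ} (hr : 0 < r) (hrr : r ≤ r') (i : Fin 5)
    (hK : r' ≤ K i * r) :
    Q n K a b r' i ≤ Q n K a b r i + (n : ℝ) ^ 4 ∧ Q n K a b r i ≤ Q n K a b r' i + (n : ℝ) ^ 4 := by
  have hr' : 0 < r' := lt_of_lt_of_le hr hrr
  have hKi := h.big.K_pos i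
  have hK1 := h.big.one_le_K i
  have mono : ∀ j, MM a b r j ≤ MM a b r' j := fun j =>
    max_le_max le_rfl (mul_le_mul_of_nonneg_right hrr (h.b0 j))
  have up : ∀ j, MM a b r' j ≤ K i * MM a b r j := by
    intro j
    unfold MM
    apply max_le
    · have h1 : a j ≤ max (a j) (r * b j) := le_max_left _ _
      have h2 := h.a0 j
      nlinarith
    · have h1 : r * b j ≤ max (a j) (r * b j) := le_max_right _ _
      calc r' * b j ≤ (K i * r) * b j := mul_le_mul_of_nonneg_right hK (h.b0 j)
        _ = K i * (r * b j) := by ring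
        _ ≤ K i * max (a j) (r * b j) := mul_le_mul_of_nonneg_left h1 hKi.le
  constructor
  · apply Helper361_centerflat.shift (fun i => h.MM_pos hr i) (fun i => h.MM_pos hr' i) h.big
    intro j
    calc MM a b r' j * MM a b r i ≤ (K i * MM a b r j) * MM a b r i :=
          mul_le_mul_of_nonneg_right (up j) (h.MM_pos hr i).le
      _ ≤ (K i * MM a b r j) * MM a b r' i :=
          mul_le_mul_of_nonneg_left (mono i) (mul_nonneg hKi.le (h.MM_pos hr j).le)
      _ = K i * (MM a b r j * MM a b r' i) := by ring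
  · apply Helper361_centerflat.shift (fun i => h.MM_pos hr' i) (fun i => h.MM_pos hr i) h.big
    intro j
    calc MM a b r j * MM a b r' i ≤ MM a b r' j * MM a b r' i :=
          mul_le_mul_of_nonneg_right (mono j) (h.MM_pos hr' i).le
      _ ≤ MM a b r' j * (K i * MM a b r i) :=
          mul_le_mul_of_nonneg_left (up i) (h.MM_pos hr' j).le
      _ = K i * (MM a b r' j * MM a b r i) := by ring

/-- if the x-type index `i` completely beats `j` -/
lemma Cfg.beaten (h : Cfg n K a b p) {r : ℝ} (hr : 0 < r) {i j : Fin 5}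
    (hh : 12 * (K j ^ n * MM a b r i) ≤ MM a b r j) : Q n K a b r j = 0 :=
  Helper361_centerflat.beaten h.big (h.MM_pos hr i) hh

end

end Pool.Agent.Helper361_centerflat
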