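import Pool.Agent.Helper361_centerflat.Reduce

namespace Pool.Agent.Helper361_centerflat

open Finset

noncomputable section

variable {n : ℕ} {K : Fin 5 → ℝ}

/-- the grid point with exponents `s` -/
def pt (K : Fin 5 → ℝ) (s : Fin 5 → Fin n) : EuclideanSpace ℝ (Fin 4) :=
  WithLp.toLp 2 (fun i => xx K s i.succ / xx K s 0)

lemma pt_apply (s : Fin 5 → Fin n) (i : Fin 4) : pt K s i = xx K s i.succ / xx K s 0 := rfl

lemma pt_inj (hK : Big n K) : Function.Injective (pt (n := n) K) := by
  intro s t hst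
  have hx : ∀ i : Fin 4, xx K s i.succ * xx K t 0 = xx K t i.succ * xx K s 0 := by
    intro i
    have h1 : pt K s i = pt K t i := by rw [hst]
    rw [pt_apply, pt_apply, div_eq_div_iff (hK.xx_pos s 0).ne' (hK.xx_pos t 0).ne'] at h1
    exact h1
  have key : ∀ s t : Fin 5 → Fin n, (∀ i : Fin 4, xx K s i.succ * xx K t 0 = xx K t i.succ * xx K s 0) →
      ∀ i : Fin 4, ¬ t i.succ < s i.succ := by
    intro s t hx i hlt
    have h1 : xx K t i.succ * K i.succ ≤ xx K s i.succ := by
      unfold xx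
      rw [← pow_succ]
      exact pow_le_pow_right₀ (hK.one_le_K _) (by exact_mod_cast hlt)
    have h2 := hK.h1 0 0 i.succ (Fin.succ_pos i) (Fin.succ_pos i)
    have h3 := hK.xx_lt s 0
    have h4 := hK.one_le_xx t 0
    have h5 := hK.xx_pos t i.succ
    have h6 := hK.one_le_Kn 0
    have h7 := hx i
    have h8 : K 0 ^ n ≤ K i.succ := by nlinarith
    have h9 : xx K t i.succ * xx K s 0 < xx K t i.succ * K i.succ :=
      mul_lt_mul_of_pos_left (lt_of_lt_of_le h3 h8) h5
    have h10 : xx K s i.succ ≤ xx K s i.succ * xx K t 0 :=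
      le_mul_of_one_le_right (hK.xx_pos s i.succ).le h4
    linarith
  have hsucc : ∀ i : Fin 4, s i.succ = t i.succ := by
    intro i
    exact le_antisymm (not_lt.1 (key s t hx i)) (not_lt.1 (key t s (fun j => (hx j).symm) i))
  have h0 : xx K t 0 = xx K s 0 := by
    have h1 := hx 0
    have h2 : xx K s (Fin.succ 0) = xx K t (Fin.succ 0) := by unfold xx; rw [hsucc 0]
    rw [h2] at h1
    exact mul_left_cancel₀ (hK.xx_pos t (Fin.succ 0)).ne' h1
  have h00 : s 0 = t 0 := by
    unfold xx at h0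
    have h2 : (1 : ℝ) < K 0 := by linarith [hK.h0 0]
    have h3 := pow_right_injective₀ (by linarith : (0 : ℝ) < K 0) h2.ne' h0
    exact Fin.ext h3.symm
  funext i
  refine Fin.cases h00 hsucc i

lemma exists_u (hK : Big n K) (P w : Fin 4 → ℝ) (hw : w ≠ 0) :
    ∃ u : Fin 5 → ℝ, u ≠ 0 ∧ u 0 + ∑ i : Fin 4, u i.succ * P i = 0 ∧
      ∑ i : Fin 4, u i.succ * w i = 0 ∧
      3 * ((Finset.univ.filter
        (fun s : Fin 5 → Fin n => 0 ≤ ∑ i, u i * xx K s i)).card : ℝ) < (n : ℝ) ^ 5 := by
  by_contra hc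
  push Not at hc
  refine no_good hK (Fin.cons 1 P) (Fin.cons 0 w) rfl rfl ?_ ?_
  · intro h
    apply hw
    funext i
    have := congrFun h i.succ
    simpa using this
  · intro u hu h1 h2
    rw [Fin.sum_univ_succ] at h1 h2
    simp only [Fin.cons_zero, Fin.cons_succ, mul_one, mul_zero, zero_add] at h1 h2
    exact hc u hu h1 h2

/-- the counterexample on `n ^ 5` points -/
theorem counterexample (hn : 10 ^ 7 ≤ n) : ∃ X : Finset (EuclideanSpace ℝ (Fin 4)), X.card = n ^ 5 ∧
    ∀ L : AffineSubspace ℝ (EuclideanSpace ℝ (Fin 4)),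
      (L : Set (EuclideanSpace ℝ (Fin 4))).Nonempty → Module.finrank ℝ L.direction = 1 →
      ∃ (a : EuclideanSpace ℝ (Fin 4)) (b : ℝ), a ≠ 0 ∧ (∀ x ∈ L, inner ℝ a x ≤ b) ∧
        3 * ((X.filter (fun x => inner ℝ a x ≤ b)).card : ℝ) < (X.card : ℝ) := by
  have hK := exists_big hn
  set K : Fin 5 → ℝ := fun i : Fin 5 => base n i with hKdef
  have hcard : (Finset.univ.map ⟨pt (n := n) K, pt_inj hK⟩).card = n ^ 5 := by
    rw [Finset.card_map, card_grid]
  refine ⟨Finset.univ.map ⟨pt (n := n) K, pt_inj hK⟩, hcard, ?_⟩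
  rintro L ⟨P, hP⟩ hL
  rw [finrank_eq_one_iff'] at hL
  obtain ⟨w, hw0, hw⟩ := hL
  have hwne : (fun i => (w : EuclideanSpace ℝ (Fin 4)) i) ≠ 0 := by
    intro h
    apply hw0
    apply Subtype.ext
    ext i
    exact congrFun h i
  obtain ⟨u, hu, h1, h2, h3⟩ := exists_u hK (fun i => P i) (fun i => (w : EuclideanSpace ℝ (Fin 4)) i) hwne
  have hin : ∀ x : EuclideanSpace ℝ (Fin 4),
      inner ℝ (WithLp.toLp 2 (fun i : Fin 4 => - u i.succ) : EuclideanSpace ℝ (Fin 4)) x
        = - ∑ i : Fin 4, u i.succ * x i := by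
    intro x
    rw [PiLp.inner_apply]
    simp [mul_comm]
  refine ⟨WithLp.toLp 2 (fun i : Fin 4 => - u i.succ), u 0, ?_, ?_, ?_⟩
  · intro h
    have h4 : ∀ i : Fin 4, u i.succ = 0 := by
      intro i
      have := congrArg (fun x : EuclideanSpace ℝ (Fin 4) => x i) h
      simpa using this
    apply hu
    funext i
    refine Fin.cases ?_ (fun i => h4 i) i
    simp only [h4, zero_mul, Finset.sum_const_zero, add_zero] at h1
    exact h1
  · intro x hx
    rw [hin]
    have hxP : x -ᵥ P ∈ L.direction := AffineSubspace.vsub_mem_direction hx hP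
    obtain ⟨c, hc⟩ := hw ⟨x -ᵥ P, hxP⟩
    have hc' : ∀ i, x i = P i + c * (w : EuclideanSpace ℝ (Fin 4)) i := by
      intro i
      have h4 := congrArg (fun y : L.direction => (y : EuclideanSpace ℝ (Fin 4)) i) hc
      simp at h4
      linarith
    have h5 : ∑ i : Fin 4, u i.succ * x i = ∑ i : Fin 4, u i.succ * P i
        + c * ∑ i : Fin 4, u i.succ * (w : EuclideanSpace ℝ (Fin 4)) i := by
      rw [Finset.mul_sum, ← Finset.sum_add_distrib]
      apply Finset.sum_congr rfl
      intro i _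
      rw [hc' i]; ring
    rw [h5, h2, mul_zero, add_zero]
    linarith
  · rw [hcard, Finset.filter_map, Finset.card_map]
    have h4 : (Finset.univ.filter ((fun x => inner ℝ (WithLp.toLp 2 (fun i : Fin 4 => - u i.succ) :
        EuclideanSpace ℝ (Fin 4)) x ≤ u 0) ∘ (⟨pt (n := n) K, pt_inj hK⟩ : (Fin 5 → Fin n) ↪ _))) =
        Finset.univ.filter (fun s : Fin 5 → Fin n => 0 ≤ ∑ i, u i * xx K s i) := by
      apply Finset.filter_congr
      intro s _
      simp only [Function.comp, Function.Embedding.coeFn_mk]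
      rw [hin]
      have h5 := hK.xx_pos s 0
      have h6 : ∑ i : Fin 4, u i.succ * pt K s i = (∑ i : Fin 4, u i.succ * xx K s i.succ) / xx K s 0 := by
        rw [Finset.sum_div]
        apply Finset.sum_congr rfl
        intro i _
        rw [pt_apply, mul_div_assoc]
      rw [h6, Fin.sum_univ_succ (fun i => u i * xx K s i)]
      constructor
      · intro h7
        have h8 : (- u 0) ≤ (∑ i : Fin 4, u i.succ * xx K s i.succ) / xx K s 0 := by linarith
        rw [le_div_iff₀ h5] at h8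
        linarith
      · intro h7
        have h8 : (- u 0) ≤ (∑ i : Fin 4, u i.succ * xx K s i.succ) / xx K s 0 := by
          rw [le_div_iff₀ h5]
          linarith
        linarith
    rw [h4]
    push_cast
    exact h3

end

end Pool.Agent.Helper361_centerflat
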