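import Pool.Agent.Helper361_centerflat.Final

namespace Pool.Agent.Helper361_centerflat

open Finset

noncomputable section

variable {n : ℕ} {K : Fin 5 → ℝ}

/-- Gordan alternative for two vectors -/
lemma gordan (P w : Fin 5 → ℝ) : (∃ c d : ℝ, ∀ i, 0 < c * P i + d * w i) ∨
    (∃ y : Fin 5 → ℝ, (∀ i, 0 ≤ y i) ∧ y ≠ 0 ∧ ∑ i, y i * P i = 0 ∧ ∑ i, y i * w i = 0) := by
  set v : Fin 5 → ℝ × ℝ := fun i => (P i, w i) with hv
  by_cases h0 : (0 : ℝ × ℝ) ∈ convexHull ℝ (Set.range v)
  · right
    rw [convexHull_range_eq_exists_affineCombination] at h0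
    obtain ⟨s, y, hy0, hy1, hy⟩ := h0
    rw [Finset.affineCombination_eq_linear_combination s v y hy1] at hy
    refine ⟨fun i => if i ∈ s then y i else 0, ?_, ?_, ?_, ?_⟩
    · intro i
      simp only
      split_ifs with h
      · exact hy0 i h
      · exact le_rfl
    · intro h
      have h1 : ∑ i ∈ s, y i = 0 := by
        apply Finset.sum_eq_zero
        intro i hi
        have := congrFun h i
        simp only [Pi.zero_apply, if_pos hi] at this
        exact this
      rw [hy1] at h1
      exact one_ne_zero h1
    · have h1 := congrArg Prod.fst hy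
      rw [Prod.fst_sum] at h1
      simp only [hv, Prod.smul_fst, smul_eq_mul, Prod.fst_zero] at h1
      refine Eq.trans ?_ h1
      simp [ite_mul]
    · have h1 := congrArg Prod.snd hy
      rw [Prod.snd_sum] at h1
      simp only [hv, Prod.smul_snd, smul_eq_mul, Prod.snd_zero] at h1
      refine Eq.trans ?_ h1
      simp [ite_mul]
  · left
    obtain ⟨f, u, hf0, hf⟩ := geometric_hahn_banach_point_closed (convex_convexHull ℝ (Set.range v))
      (Set.Finite.isClosed_convexHull ℝ (Set.finite_range v)) h0
    rw [map_zero] at hf0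
    refine ⟨f (1, 0), f (0, 1), fun i => ?_⟩
    have h1 := hf (v i) (subset_convexHull ℝ _ ⟨i, rfl⟩)
    have h2 : v i = P i • ((1 : ℝ), (0 : ℝ)) + w i • ((0 : ℝ), (1 : ℝ)) := by
      simp [hv]
    rw [h2, map_add, map_smul, map_smul, smul_eq_mul, smul_eq_mul] at h1
    linarith

/-- a good pair whose first vector is positive -/
lemma no_good_pos (hK : Big n K) (lam mu : Fin 5 → ℝ) (hl : ∀ i, 0 < lam i)
    (hne : ¬ ∃ t : ℝ, ∀ i, mu i = t * lam i) (hg : Good n K lam mu) : False := by
  set θ : Fin 5 → ℝ := fun i => mu i / lam i with hθ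
  have hmu : ∀ i, mu i = θ i * lam i := by
    intro i
    simp only [hθ]
    rw [div_mul_cancel₀ _ (hl i).ne']
  set p : Equiv.Perm (Fin 5) := Tuple.sort θ with hp
  have hmono : Monotone (θ ∘ p) := Tuple.monotone_sort θ
  have hm : ∀ i j, i ≤ j → θ (p i) ≤ θ (p j) := fun i j hij => hmono hij
  set t0 := θ (p 0) with ht0
  set t4 := θ (p 4) with ht4
  have low : ∀ i, t0 ≤ θ i := by
    intro i
    have h1 := hm 0 (p.symm i) (Fin.zero_le _)
    rwa [Equiv.apply_symm_apply] at h1
  have high : ∀ i, θ i ≤ t4 := by
    intro i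
    have h1 := hm (p.symm i) 4 (Fin.le_last _)
    rwa [Equiv.apply_symm_apply] at h1
  have hlt : t0 < t4 := by
    rcases (low (p 4)).lt_or_eq with h | h
    · exact h
    · exfalso
      apply hne
      refine ⟨t0, fun i => ?_⟩
      have h1 : θ i = t0 := le_antisymm ((high i).trans_eq h.symm) (low i)
      rw [hmu i, h1]
  have cfg : Cfg n K (fun i => (t4 - θ i) * lam i) (fun i => (θ i - t0) * lam i) p := by
    refine ⟨hK, p.injective, ?_, ?_, ?_, ?_, ?_, ?_, ?_⟩
    · intro i; exact mul_nonneg (by linarith [high i]) (hl i).le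
    · intro i; exact mul_nonneg (by linarith [low i]) (hl i).le
    · intro i
      have : (t4 - θ i) * lam i + (θ i - t0) * lam i = (t4 - t0) * lam i := by ring
      rw [this]
      exact mul_pos (by linarith) (hl i)
    · simp [ht0]
    · simp [ht4]
    · intro i j hij
      have h1 := hm i j hij
      have h2 := low (p i)
      have h3 := high (p j)
      have h4 : 0 < lam (p i) * lam (p j) := mul_pos (hl _) (hl _)
      have h5 : (θ (p i) - t0) * (t4 - θ (p j)) ≤ (θ (p j) - t0) * (t4 - θ (p i)) := by
        apply mul_le_mul (by linarith) (by linarith) (by linarith) (by linarith)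
      calc (θ (p i) - t0) * lam (p i) * ((t4 - θ (p j)) * lam (p j))
          = ((θ (p i) - t0) * (t4 - θ (p j))) * (lam (p i) * lam (p j)) := by ring
        _ ≤ ((θ (p j) - t0) * (t4 - θ (p i))) * (lam (p i) * lam (p j)) :=
            mul_le_mul_of_nonneg_right h5 h4.le
        _ = (θ (p j) - t0) * lam (p j) * ((t4 - θ (p i)) * lam (p i)) := by ring
    · intro u hu h1 h2
      have e1 : ∑ i, u i * ((t4 - θ i) * lam i) = t4 * ∑ i, u i * lam i - ∑ i, u i * mu i := by
        rw [Finset.mul_sum, ← Finset.sum_sub_distrib]
        apply Finset.sum_congr rfl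
        intro i _
        rw [hmu i]; ring
      have e2 : ∑ i, u i * ((θ i - t0) * lam i) = ∑ i, u i * mu i - t0 * ∑ i, u i * lam i := by
        rw [Finset.mul_sum, ← Finset.sum_sub_distrib]
        apply Finset.sum_congr rfl
        intro i _
        rw [hmu i]; ring
      rw [e1] at h1
      rw [e2] at h2
      have h3 : (t4 - t0) * ∑ i, u i * lam i = 0 := by linarith
      have h4 : ∑ i, u i * lam i = 0 := by
        rcases mul_eq_zero.1 h3 with h | h
        · linarith
        · exact h
      rw [h4, mul_zero] at h1
      exact hg u hu h4 (by linarith)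
  exact cfg.false

/-- a good pair of vectors cannot exist -/
lemma no_good (hK : Big n K) (P w : Fin 5 → ℝ) (hP : P 0 = 1) (hw0 : w 0 = 0) (hw : w ≠ 0)
    (hg : Good n K P w) : False := by
  obtain ⟨hN, he, hN0⟩ := hK.ineq
  rcases gordan P w with ⟨c, d, hcd⟩ | ⟨y, hy0, hy, h1, h2⟩
  · by_cases hd : d = 0
    · -- lam = c P, mu = w
      subst hd
      have hc : 0 < c := by have := hcd 0; rw [hP, hw0] at this; linarith
      refine no_good_pos hK (fun i => c * P i + 0 * w i) w hcd ?_ ?_
      · rintro ⟨t, ht⟩
        have h0 := ht 0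
        rw [hP, hw0] at h0
        have ht0 : t = 0 := by
          rcases mul_eq_zero.1 h0.symm with h | h
          · exact h
          · exfalso; linarith
        apply hw
        funext i
        rw [ht i, ht0]; simp
      · intro u hu h1 h2
        apply hg u hu _ h2
        have e : ∑ i, u i * (c * P i + 0 * w i) = c * ∑ i, u i * P i := by
          rw [Finset.mul_sum]
          apply Finset.sum_congr rfl
          intro i _; ring
        rw [e] at h1
        rcases mul_eq_zero.1 h1 with h | h
        · linarith
        · exact h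
    · refine no_good_pos hK (fun i => c * P i + d * w i) P hcd ?_ ?_
      · rintro ⟨t, ht⟩
        have h0 := ht 0
        rw [hP, hw0] at h0
        have htc : t * c = 1 := by linarith
        have ht0 : t ≠ 0 := by intro h; rw [h] at htc; linarith
        apply hw
        funext i
        have h1 := ht i
        have h2 : (t * d) * w i = 0 := by
          have : P i = (t * c) * P i + (t * d) * w i := by linarith
          rw [htc] at this
          linarith
        rcases mul_eq_zero.1 h2 with h | h
        · exact absurd h (mul_ne_zero ht0 hd)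
        · simpa using h
      · intro u hu h1 h2
        apply hg u hu h2
        have e : ∑ i, u i * (c * P i + d * w i) = c * ∑ i, u i * P i + d * ∑ i, u i * w i := by
          rw [Finset.mul_sum, Finset.mul_sum, ← Finset.sum_add_distrib]
          apply Finset.sum_congr rfl
          intro i _; ring
        rw [e, h2, mul_zero, zero_add] at h1
        rcases mul_eq_zero.1 h1 with h | h
        · exact absurd h hd
        · exact h
  · have h3 := hg (fun i => - y i) (by
      intro h
      apply hy
      funext i
      have := congrFun h i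
      simpa using this) (by simp only [neg_mul, Finset.sum_neg_distrib, h1, neg_zero])
      (by simp only [neg_mul, Finset.sum_neg_distrib, h2, neg_zero])
    have h4 : (Finset.univ.filter (fun s : Fin 5 → Fin n => 0 ≤ ∑ i, - y i * xx K s i)) = ∅ := by
      rw [Finset.eq_empty_iff_forall_notMem]
      intro s hs
      have h5 := (Finset.mem_filter.1 hs).2
      have h6 : 0 < ∑ i, y i * xx K s i := by
        obtain ⟨j, hj⟩ : ∃ j, y j ≠ 0 := by
          by_contra hc
          push Not at hc
          exact hy (funext hc)
        apply Finset.sum_pos' (fun i _ => mul_nonneg (hy0 i) (hK.xx_pos s i).le)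
        exact ⟨j, Finset.mem_univ j, mul_pos (lt_of_le_of_ne (hy0 j) (Ne.symm hj)) (hK.xx_pos s j)⟩
      simp only [neg_mul, Finset.sum_neg_distrib] at h5
      linarith
    rw [h4] at h3
    simp at h3
    linarith

/-- bases growing fast enough -/
def base (n : ℕ) : ℕ → ℝ
  | 0 => 288
  | m + 1 => 20736 * (base n m ^ n * base n m ^ n)

lemma base_ge (n : ℕ) : ∀ m, 288 ≤ base n m
  | 0 => le_rfl
  | m + 1 => by
    have h := base_ge n m
    have h1 : 1 ≤ base n m ^ n := one_le_pow₀ (by linarith)
    unfold base
    nlinarith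

lemma base_succ (hn : 1 ≤ n) (m : ℕ) : base n m ≤ base n (m + 1) := by
  have h := base_ge n m
  have h1 : 1 ≤ base n m ^ n := one_le_pow₀ (by linarith)
  have h2 : base n m ≤ base n m ^ n := le_self_pow₀ (by linarith) (by omega)
  rw [base]
  nlinarith

lemma base_mono (hn : 1 ≤ n) : Monotone (base n) := monotone_nat_of_le_succ (base_succ hn)

lemma exists_big (hn : 10 ^ 7 ≤ n) : Big n (fun i : Fin 5 => base n i) := by
  have hn1 : 1 ≤ n := le_trans (by norm_num) hn
  refine ⟨hn, fun i => base_ge n i, ?_⟩
  intro i j h hi hj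
  have hpos : ∀ m, 0 ≤ base n m := fun m => by linarith [base_ge n m]
  obtain ⟨h, hh⟩ := h
  cases h with
  | zero => exact absurd hi (by simp)
  | succ m =>
    have hi' : (i : ℕ) ≤ m := by rw [Fin.lt_def] at hi; simp at hi; omega
    have hj' : (j : ℕ) ≤ m := by rw [Fin.lt_def] at hj; simp at hj; omega
    have h1 : base n i ^ n ≤ base n m ^ n := pow_le_pow_left₀ (hpos _) (base_mono hn1 hi') n
    have h2 : base n j ^ n ≤ base n m ^ n := pow_le_pow_left₀ (hpos _) (base_mono hn1 hj') n
    have h3 : base n i ^ n * base n j ^ n ≤ base n m ^ n * base n m ^ n :=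
      mul_le_mul h1 h2 (pow_nonneg (hpos _) _) (pow_nonneg (hpos _) _)
    change 20736 * (base n i ^ n * base n j ^ n) ≤ base n (m + 1)
    rw [base]
    linarith

end

end Pool.Agent.Helper361_centerflat
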