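import Pool.Agent.Helper361_centerflat.Patterns

namespace Pool.Agent.Helper361_centerflat

open Finset

noncomputable section

variable {n : ℕ} {K M a b : Fin 5 → ℝ} {p : Fin 5 → Fin 5}

lemma Big.ineq (h : Big n K) : 10 ^ 7 * (n : ℝ) ^ 4 ≤ (n : ℝ) ^ 5 ∧ 0 < (n : ℝ) ^ 4 ∧ 0 < (n : ℝ) ^ 5 := by
  have h1 : (10 : ℝ) ^ 7 ≤ n := by exact_mod_cast h.hn
  have h2 : (0 : ℝ) < n := by linarith [show (0:ℝ) < 10 ^ 7 by norm_num]
  refine ⟨?_, by positivity, by positivity⟩
  calc 10 ^ 7 * (n : ℝ) ^ 4 ≤ n * (n : ℝ) ^ 4 := mul_le_mul_of_nonneg_right h1 (by positivity)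
    _ = (n : ℝ) ^ 5 := by ring

lemma Cfg.a_p0 (h : Cfg n K a b p) : 0 < a (p 0) := by
  have := h.ab (p 0); rw [h.hb] at this; linarith

lemma Cfg.b_p4 (h : Cfg n K a b p) : 0 < b (p 4) := by
  have := h.ab (p 4); rw [h.ha] at this; linarith

/-- facts shared by the two cases of the zero lemma -/
structure ZData (n : ℕ) (K a b : Fin 5 → ℝ) (p : Fin 5 → Fin 5) (t r3 : ℝ) : Prop where
  cfg : Cfg n K a b p
  ht : 0 < t
  r3_nonneg : 0 ≤ r3
  r3_le : r3 ≤ t
  xt : ∀ k : Fin 5, k ≤ 2 → ∀ r, 0 < r → r ≤ t → r * b (p k) ≤ a (p k)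
  yt : ∀ l : Fin 5, 3 ≤ l → ∀ r, r3 ≤ r → a (p l) ≤ r * b (p l)
  apos : ∀ k : Fin 5, k ≤ 2 → 0 < a (p k)
  bpos : ∀ l : Fin 5, 3 ≤ l → 0 < b (p l)
  sing : a (p 3) = r3 * b (p 3)
  small : 50 * (Q n K a b t (p 3) + Q n K a b t (p 4)) ≤ (n : ℝ) ^ 5

namespace ZData

variable {t r3 : ℝ}

lemma pair (z : ZData n K a b p t r3) {r : ℝ} (h0 : 0 < r) (h1 : r3 ≤ r) (h2 : r ≤ t)
    (k l : Fin 5) (hk : k ≤ 2) (hl : 3 ≤ l) :
    (n : ℝ) ^ 5 ≤ 3 * (Q n K a b r (p k) + Q n K a b r (p l)) :=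
  z.cfg.pair h0 (z.xt k hk r h0 h2) (z.yt l hl r h1)

lemma mx (z : ZData n K a b p t r3) {r : ℝ} (h0 : 0 < r) (h2 : r ≤ t) (k : Fin 5) (hk : k ≤ 2) :
    MM a b r (p k) = a (p k) := max_eq_left (z.xt k hk r h0 h2)

lemma my (z : ZData n K a b p t r3) {r : ℝ} (h1 : r3 ≤ r) (l : Fin 5) (hl : 3 ≤ l) :
    MM a b r (p l) = r * b (p l) := max_eq_right (z.yt l hl r h1)

lemma beta (z : ZData n K a b p t r3) (k0 l l' : Fin 5) (hk0 : k0 ≤ 2)
    (hll : (l = 3 ∧ l' = 4) ∨ (l = 4 ∧ l' = 3)) (h1 : p l < p l') (h2 : p k0 < p l') : False := by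
  obtain ⟨hN, he, hN0⟩ := z.cfg.big.ineq
  have hl : 3 ≤ l := by rcases hll with ⟨h, _⟩ | ⟨h, _⟩ <;> rw [h] <;> decide
  have hl' : 3 ≤ l' := by rcases hll with ⟨_, h⟩ | ⟨_, h⟩ <;> rw [h] <;> decide
  set i := p k0 with hi
  set j := p l with hj
  set m := p l' with hm
  have ai : 0 < a i := z.apos k0 hk0
  have bj : 0 < b j := z.bpos l hl
  have Ki := z.cfg.big.Kn_pos i
  have Kj := z.cfg.big.Kn_pos j
  have Ki1 := z.cfg.big.one_le_Kn i
  have Kj1 := z.cfg.big.one_le_Kn j
  have hKm : 20736 * (K i ^ n * K j ^ n) ≤ K m := z.cfg.big.h1 i j m h2 h1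
  set rm := a i / (12 * (K i ^ n * b j)) with hrm
  set rp := 12 * (K j ^ n * a i) / b j with hrp
  have rmpos : 0 < rm := by positivity
  have rppos : 0 < rp := by positivity
  have e1 : 12 * (K i ^ n * (rm * b j)) = a i := by
    rw [hrm]; field_simp
  have e2 : rp * b j = 12 * (K j ^ n * a i) := by
    rw [hrp]; field_simp
  have ratio : rp ≤ K m * rm := by
    have h3 : rp * b j ≤ (K m * rm) * b j := by
      rw [e2]
      have h4 : 20736 * (K i ^ n * K j ^ n) * (rm * b j) ≤ K m * (rm * b j) :=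
        mul_le_mul_of_nonneg_right hKm (by positivity)
      have h5 : 20736 * (K i ^ n * K j ^ n) * (rm * b j)
          = 1728 * (K j ^ n * (12 * (K i ^ n * (rm * b j)))) := by ring
      rw [h5, e1] at h4
      have h6 : 0 < K j ^ n * a i := by positivity
      calc 12 * (K j ^ n * a i) ≤ 1728 * (K j ^ n * a i) := by linarith
        _ ≤ K m * (rm * b j) := h4
        _ = K m * rm * b j := by ring
    exact le_of_mul_le_mul_right h3 bj
  have rmrp : rm ≤ rp := by
    have h3 : rm * b j ≤ rp * b j := by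
      rw [e2]
      have h4 : 0 < rm * b j := by positivity
      have h5 : rm * b j ≤ K i ^ n * (rm * b j) := le_mul_of_one_le_left h4.le Ki1
      have h6 : a i ≤ K j ^ n * a i := le_mul_of_one_le_left ai.le Kj1
      linarith
    exact le_of_mul_le_mul_right h3 bj
  have beat_i : ∀ r, 0 < r → r3 ≤ r → r ≤ t → r ≤ rm → Q n K a b r i = 0 := by
    intro r h0 h3 h4 h5
    apply z.cfg.beaten h0 (i := j)
    rw [hi, z.mx h0 h4 k0 hk0, hj, z.my h3 l hl]
    rw [← hi, ← hj, ← e1]
    have : r * b j ≤ rm * b j := mul_le_mul_of_nonneg_right h5 bj.le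
    have : K i ^ n * (r * b j) ≤ K i ^ n * (rm * b j) := mul_le_mul_of_nonneg_left this Ki.le
    linarith
  have beat_j : ∀ r, 0 < r → r3 ≤ r → r ≤ t → rp ≤ r → Q n K a b r j = 0 := by
    intro r h0 h3 h4 h5
    apply z.cfg.beaten h0 (i := i)
    rw [hi, z.mx h0 h4 k0 hk0, hj, z.my h3 l hl]
    rw [← hi, ← hj, ← e2]
    exact mul_le_mul_of_nonneg_right h5 bj.le
  have rmt : rm < t := by
    by_contra hc
    push Not at hc
    have h3 := beat_i t z.ht z.r3_le le_rfl hc
    have h4 := z.pair z.ht z.r3_le le_rfl k0 l hk0 hl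
    rw [← hi, h3] at h4
    have h5 := z.small
    have h6 : Q n K a b t (p l) ≤ Q n K a b t (p 3) + Q n K a b t (p 4) := by
      have h7 := Q_nonneg (n := n) (K := K) (a := a) (b := b) t (p 3)
      have h8 := Q_nonneg (n := n) (K := K) (a := a) (b := b) t (p 4)
      rcases hll with ⟨h, _⟩ | ⟨h, _⟩ <;> rw [h] <;> linarith
    linarith
  have r3rp : r3 ≤ rp := by
    by_contra hc
    push Not at hc
    have h0 : 0 < r3 := lt_trans rppos hc
    have h3 := beat_j r3 h0 le_rfl z.r3_le hc.le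
    have h4 := z.cfg.single h0 z.sing
    rcases hll with ⟨h, _⟩ | ⟨h, _⟩
    · rw [hj, h] at h3
      rw [h3] at h4
      linarith
    · have h5 := z.pair h0 le_rfl z.r3_le 0 l (by decide) hl
      have h6 := z.pair h0 le_rfl z.r3_le 1 l (by decide) hl
      have h7 := z.pair h0 le_rfl z.r3_le 2 l (by decide) hl
      rw [← hj, h3] at h5 h6 h7
      have h8 := z.cfg.sum_le h0
      rw [hj, h] at h3
      linarith
  set rhi := min t rp with hrhi
  set rlo := max r3 rm with hrlo
  have lohi : rlo ≤ rhi := max_le (le_min z.r3_le r3rp) (le_min rmt.le rmrp)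
  have lopos : 0 < rlo := lt_of_lt_of_le rmpos (le_max_right _ _)
  have hipos : 0 < rhi := lt_of_lt_of_le lopos lohi
  have h3lo : r3 ≤ rlo := le_max_left _ _
  have hhit : rhi ≤ t := min_le_left _ _
  have f3 : Q n K a b rhi m ≤ (n : ℝ) ^ 5 / 50 + 20 * (n : ℝ) ^ 4 := by
    rcases le_total t rp with hc | hc
    · have : rhi = t := min_eq_left hc
      rw [this]
      have h5 := z.small
      have h7 := Q_nonneg (n := n) (K := K) (a := a) (b := b) t (p 3)
      have h8 := Q_nonneg (n := n) (K := K) (a := a) (b := b) t (p 4)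
      have h6 : Q n K a b t m ≤ Q n K a b t (p 3) + Q n K a b t (p 4) := by
        rw [hm]
        rcases hll with ⟨_, h⟩ | ⟨_, h⟩ <;> rw [h] <;> linarith
      linarith
    · have : rhi = rp := min_eq_right hc
      rw [this]
      have h3 := beat_j rp rppos r3rp hc le_rfl
      have h5 := z.pair rppos r3rp hc 0 l (by decide) hl
      have h6 := z.pair rppos r3rp hc 1 l (by decide) hl
      have h7 := z.pair rppos r3rp hc 2 l (by decide) hl
      rw [← hj, h3] at h5 h6 h7
      have h8 := z.cfg.sum_le rppos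
      have h9 := Q_nonneg (n := n) (K := K) (a := a) (b := b) rp (p 3)
      have h10 := Q_nonneg (n := n) (K := K) (a := a) (b := b) rp (p 4)
      rw [hm]
      rcases hll with ⟨_, h⟩ | ⟨_, h⟩ <;> rw [h] <;> linarith
  have f4 : (n : ℝ) ^ 5 / 6 - 10 * (n : ℝ) ^ 4 ≤ Q n K a b rlo m := by
    rcases le_total r3 rm with hc | hc
    · have : rlo = rm := max_eq_right hc
      rw [this]
      have h3 := beat_i rm rmpos hc rmt.le le_rfl
      have h4 := z.pair rmpos hc rmt.le k0 l' hk0 hl'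
      rw [← hi, h3, ← hm] at h4
      linarith
    · have h00 : rlo = r3 := max_eq_left hc
      have h0 : 0 < r3 := lt_of_lt_of_le rmpos hc
      rw [h00]
      have h4 := z.cfg.single h0 z.sing
      rcases hll with ⟨_, h⟩ | ⟨_, h⟩
      · have h5 := z.pair h0 le_rfl z.r3_le 0 4 (by decide) (by decide)
        have h6 := z.pair h0 le_rfl z.r3_le 1 4 (by decide) (by decide)
        have h7 := z.pair h0 le_rfl z.r3_le 2 4 (by decide) (by decide)
        have h8 := z.cfg.sum_le h0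
        rw [hm, h]
        linarith
      · rw [hm, h]
        linarith
  have f5 := (z.cfg.shift lopos lohi m (by
    calc rhi ≤ rp := min_le_right _ _
      _ ≤ K m * rm := ratio
      _ ≤ K m * rlo := mul_le_mul_of_nonneg_left (le_max_right _ _) (z.cfg.big.K_pos m).le)).2
  linarith

lemma alpha (z : ZData n K a b p t r3) (l l' k2 : Fin 5) (hk2 : k2 ≤ 2)
    (hll : (l = 3 ∧ l' = 4) ∨ (l = 4 ∧ l' = 3)) (h1 : p l = 0) (h2 : p l' = 1) (h3 : p k2 = 2) :
    False := by
  obtain ⟨hN, he, hN0⟩ := z.cfg.big.ineq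
  have hl : 3 ≤ l := by rcases hll with ⟨h, _⟩ | ⟨h, _⟩ <;> rw [h] <;> decide
  have hl' : 3 ≤ l' := by rcases hll with ⟨_, h⟩ | ⟨_, h⟩ <;> rw [h] <;> decide
  have a2 : 0 < a 2 := by rw [← h3]; exact z.apos k2 hk2
  have b0 : 0 < b 0 := by rw [← h1]; exact z.bpos l hl
  have b1 : 0 < b 1 := by rw [← h2]; exact z.bpos l' hl'
  set bm := min (b 0) (b 1) with hbm
  have bmpos : 0 < bm := lt_min b0 b1
  have K1 := z.cfg.big.Kn_pos 1
  have K2 := z.cfg.big.Kn_pos 2
  have K11 := z.cfg.big.one_le_Kn 1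
  have K21 := z.cfg.big.one_le_Kn 2
  have K0n : K 0 ^ n ≤ K 1 ^ n := by
    apply pow_le_pow_left₀ (z.cfg.big.K_pos 0).le
    have h4 := z.cfg.big.h1 0 0 1 (by decide) (by decide)
    have h5 : K 0 ≤ K 0 ^ n := le_self_pow₀ (z.cfg.big.one_le_K 0) (by have := z.cfg.big.hn; omega)
    have h6 := z.cfg.big.one_le_Kn 0
    have h7 : K 0 ^ n ≤ K 0 ^ n * K 0 ^ n := le_mul_of_one_le_left (by linarith) h6
    linarith
  set rm := a 2 / (12 * (K 2 ^ n * bm)) with hrm
  set rp := 12 * (K 1 ^ n * a 2) / bm with hrp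
  have rmpos : 0 < rm := by positivity
  have rppos : 0 < rp := by positivity
  have e1 : 12 * (K 2 ^ n * (rm * bm)) = a 2 := by
    rw [hrm]; field_simp
  have e2 : rp * bm = 12 * (K 1 ^ n * a 2) := by
    rw [hrp]; field_simp
  have ratio : ∀ m : Fin 5, 2 < m → rp ≤ K m * rm := by
    intro m hm
    have hKm : 20736 * (K 2 ^ n * K 1 ^ n) ≤ K m :=
      z.cfg.big.h1 2 1 m hm (lt_trans (by decide) hm)
    have h3 : rp * bm ≤ (K m * rm) * bm := by
      rw [e2]
      have h4 : 20736 * (K 2 ^ n * K 1 ^ n) * (rm * bm) ≤ K m * (rm * bm) :=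
        mul_le_mul_of_nonneg_right hKm (by positivity)
      have h5 : 20736 * (K 2 ^ n * K 1 ^ n) * (rm * bm)
          = 1728 * (K 1 ^ n * (12 * (K 2 ^ n * (rm * bm)))) := by ring
      rw [h5, e1] at h4
      have h6 : 0 < K 1 ^ n * a 2 := by positivity
      calc 12 * (K 1 ^ n * a 2) ≤ 1728 * (K 1 ^ n * a 2) := by linarith
        _ ≤ K m * (rm * bm) := h4
        _ = K m * rm * bm := by ring
    exact le_of_mul_le_mul_right h3 bmpos
  have rmrp : rm ≤ rp := by
    have h3 : rm * bm ≤ rp * bm := by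
      rw [e2]
      have h4 : 0 < rm * bm := by positivity
      have h5 : rm * bm ≤ K 2 ^ n * (rm * bm) := le_mul_of_one_le_left h4.le K21
      have h6 : a 2 ≤ K 1 ^ n * a 2 := le_mul_of_one_le_left a2.le K11
      linarith
    exact le_of_mul_le_mul_right h3 bmpos
  have m2 : ∀ r, 0 < r → r ≤ t → MM a b r 2 = a 2 := by
    intro r h0 h4; rw [← h3]; exact z.mx h0 h4 k2 hk2
  have m0 : ∀ r, r3 ≤ r → MM a b r 0 = r * b 0 := by
    intro r h4; rw [← h1]; exact z.my h4 l hl
  have m1 : ∀ r, r3 ≤ r → MM a b r 1 = r * b 1 := by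
    intro r h4; rw [← h2]; exact z.my h4 l' hl'
  have beat_2 : ∀ r, 0 < r → r3 ≤ r → r ≤ t → r ≤ rm → Q n K a b r 2 = 0 := by
    intro r h0 h5 h4 h6
    have h7 : 12 * (K 2 ^ n * (r * bm)) ≤ a 2 := by
      rw [← e1]
      have : r * bm ≤ rm * bm := mul_le_mul_of_nonneg_right h6 bmpos.le
      have : K 2 ^ n * (r * bm) ≤ K 2 ^ n * (rm * bm) := mul_le_mul_of_nonneg_left this K2.le
      linarith
    rcases min_choice (b 0) (b 1) with hc | hc
    · apply z.cfg.beaten h0 (i := 0)
      rw [m2 r h0 h4, m0 r h5, ← hc]; exact h7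
    · apply z.cfg.beaten h0 (i := 1)
      rw [m2 r h0 h4, m1 r h5, ← hc]; exact h7
  have beat_01 : ∀ r, 0 < r → r3 ≤ r → r ≤ t → rp ≤ r → Q n K a b r 0 = 0 ∧ Q n K a b r 1 = 0 := by
    intro r h0 h5 h4 h6
    have h7 : 12 * (K 1 ^ n * a 2) ≤ r * bm := by
      rw [← e2]; exact mul_le_mul_of_nonneg_right h6 bmpos.le
    constructor
    · apply z.cfg.beaten h0 (i := 2)
      rw [m2 r h0 h4, m0 r h5]
      have h8 : r * bm ≤ r * b 0 := mul_le_mul_of_nonneg_left (min_le_left _ _) h0.le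
      have h9 : K 0 ^ n * a 2 ≤ K 1 ^ n * a 2 := mul_le_mul_of_nonneg_right K0n a2.le
      linarith
    · apply z.cfg.beaten h0 (i := 2)
      rw [m2 r h0 h4, m1 r h5]
      have h8 : r * bm ≤ r * b 1 := mul_le_mul_of_nonneg_left (min_le_right _ _) h0.le
      linarith
  have beat_34 : ∀ r, 0 < r → r3 ≤ r → r ≤ t → rp ≤ r →
      Q n K a b r (p 3) = 0 ∧ Q n K a b r (p 4) = 0 := by
    intro r h0 h5 h4 h6
    obtain ⟨h7, h8⟩ := beat_01 r h0 h5 h4 h6
    rcases hll with ⟨h, h'⟩ | ⟨h, h'⟩ <;> rw [h] at h1 <;> rw [h'] at h2 <;> rw [h1, h2]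
    · exact ⟨h7, h8⟩
    · exact ⟨h8, h7⟩
  have rmt : rm < t := by
    by_contra hc
    push Not at hc
    have h4 := beat_2 t z.ht z.r3_le le_rfl hc
    have h5 := z.pair z.ht z.r3_le le_rfl k2 3 hk2 (by decide)
    rw [h3, h4] at h5
    have h6 := z.small
    have h8 := Q_nonneg (n := n) (K := K) (a := a) (b := b) t (p 4)
    linarith
  have r3rp : r3 ≤ rp := by
    by_contra hc
    push Not at hc
    have h0 : 0 < r3 := lt_trans rppos hc
    have h4 := beat_34 r3 h0 le_rfl z.r3_le hc.le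
    have h5 := z.cfg.single h0 z.sing
    rw [h4.1] at h5
    linarith
  set rhi := min t rp with hrhi
  set rlo := max r3 rm with hrlo
  have lohi : rlo ≤ rhi := max_le (le_min z.r3_le r3rp) (le_min rmt.le rmrp)
  have lopos : 0 < rlo := lt_of_lt_of_le rmpos (le_max_right _ _)
  have hipos : 0 < rhi := lt_of_lt_of_le lopos lohi
  have h3lo : r3 ≤ rlo := le_max_left _ _
  have h3hi : r3 ≤ rhi := le_trans h3lo lohi
  have hhit : rhi ≤ t := min_le_left _ _
  have f3 : 50 * (Q n K a b rhi (p 3) + Q n K a b rhi (p 4)) ≤ (n : ℝ) ^ 5 := by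
    rcases le_total t rp with hc | hc
    · have : rhi = t := min_eq_left hc
      rw [this]; exact z.small
    · have : rhi = rp := min_eq_right hc
      rw [this]
      obtain ⟨h4, h5⟩ := beat_34 rp rppos r3rp hc le_rfl
      rw [h4, h5]; linarith
  have f4 : (n : ℝ) ^ 5 / 2 - 10 * (n : ℝ) ^ 4 ≤
      Q n K a b rlo (p 3) + Q n K a b rlo (p 4) + Q n K a b rlo (p k2) := by
    rcases le_total r3 rm with hc | hc
    · have : rlo = rm := max_eq_right hc
      rw [this]
      have h4 := beat_2 rm rmpos hc rmt.le le_rfl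
      have h5 := z.pair rmpos hc rmt.le k2 3 hk2 (by decide)
      have h6 := z.pair rmpos hc rmt.le k2 4 hk2 (by decide)
      rw [h3, h4] at h5 h6
      rw [h3, h4]
      linarith
    · have h00 : rlo = r3 := max_eq_left hc
      have h0 : 0 < r3 := lt_of_lt_of_le rmpos hc
      rw [h00]
      have h4 := z.cfg.single h0 z.sing
      have h5 := z.pair h0 le_rfl z.r3_le 0 4 (by decide) (by decide)
      have h6 := z.pair h0 le_rfl z.r3_le 1 4 (by decide) (by decide)
      have h7 := z.pair h0 le_rfl z.r3_le 2 4 (by decide) (by decide)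
      have h8 := z.cfg.sum_le h0
      have h9 := Q_nonneg (n := n) (K := K) (a := a) (b := b) r3 (p k2)
      linarith
  have f5 : ∀ k : Fin 5, 2 < p k → Q n K a b rhi (p k) ≤ Q n K a b rlo (p k) + (n : ℝ) ^ 4 := by
    intro k hk
    exact (z.cfg.shift lopos lohi (p k) (by
      calc rhi ≤ rp := min_le_right _ _
        _ ≤ K (p k) * rm := ratio _ hk
        _ ≤ K (p k) * rlo := mul_le_mul_of_nonneg_left (le_max_right _ _)
          (z.cfg.big.K_pos _).le)).1
  have big2 : ∀ k : Fin 5, k ≤ 2 → k ≠ k2 → 2 < p k := by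
    intro k hk hne
    have hkl : k ≠ l := by rintro rfl; exact absurd (le_trans hl hk) (by decide)
    have hkl' : k ≠ l' := by rintro rfl; exact absurd (le_trans hl' hk) (by decide)
    have g0 : p k ≠ 0 := by rw [← h1]; exact fun h => hkl (z.cfg.inj h)
    have g1 : p k ≠ 1 := by rw [← h2]; exact fun h => hkl' (z.cfg.inj h)
    have g2 : p k ≠ 2 := by rw [← h3]; exact fun h => hne (z.cfg.inj h)
    revert g0 g1 g2
    generalize p k = x
    revert x
    decide
  have s1 := z.cfg.sum_le lopos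
  have s2 := z.cfg.sum_ge hipos
  have s3 := z.cfg.sum_le hipos
  have q0 := z.pair hipos h3hi hhit 0 3 (by decide) (by decide)
  have q1 := z.pair hipos h3hi hhit 1 3 (by decide) (by decide)
  have q2 := z.pair hipos h3hi hhit 2 3 (by decide) (by decide)
  have nn3 := Q_nonneg (n := n) (K := K) (a := a) (b := b) rhi (p 3)
  have nn4 := Q_nonneg (n := n) (K := K) (a := a) (b := b) rhi (p 4)
  have hk2' : k2 = 0 ∨ k2 = 1 ∨ k2 = 2 := by
    revert hk2; generalize k2 = x; revert x; decide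
  rcases hk2' with hc | hc | hc
  · subst hc
    have g1 := f5 1 (big2 1 (by decide) (by decide))
    have g2 := f5 2 (big2 2 (by decide) (by decide))
    linarith
  · subst hc
    have g1 := f5 0 (big2 0 (by decide) (by decide))
    have g2 := f5 2 (big2 2 (by decide) (by decide))
    linarith
  · subst hc
    have g1 := f5 0 (big2 0 (by decide) (by decide))
    have g2 := f5 1 (big2 1 (by decide) (by decide))
    linarith

lemma false (z : ZData n K a b p t r3) : False := by
  have hne : p 3 ≠ p 4 := fun h => absurd (z.cfg.inj h) (by decide)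
  have key : ∀ l l' : Fin 5, (l = 3 ∧ l' = 4) ∨ (l = 4 ∧ l' = 3) → p l < p l' → False := by
    intro l l' hll hlt
    by_cases hc : ∃ k0 : Fin 5, k0 ≤ 2 ∧ p k0 < p l'
    · obtain ⟨k0, hk0, hlt2⟩ := hc
      exact z.beta k0 l l' hk0 hll hlt hlt2
    · push Not at hc
      have g0 := hc 0 (by decide)
      have g1 := hc 1 (by decide)
      have g2 := hc 2 (by decide)
      have inj := z.cfg.inj
      have n01 : p 0 ≠ p 1 := fun h => absurd (inj h) (by decide)
      have n02 : p 0 ≠ p 2 := fun h => absurd (inj h) (by decide)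
      have n12 : p 1 ≠ p 2 := fun h => absurd (inj h) (by decide)
      have n0 : p 0 ≠ p l' := fun h => absurd (inj h) (by
        rcases hll with ⟨_, h⟩ | ⟨_, h⟩ <;> rw [h] <;> decide)
      have n1 : p 1 ≠ p l' := fun h => absurd (inj h) (by
        rcases hll with ⟨_, h⟩ | ⟨_, h⟩ <;> rw [h] <;> decide)
      have n2 : p 2 ≠ p l' := fun h => absurd (inj h) (by
        rcases hll with ⟨_, h⟩ | ⟨_, h⟩ <;> rw [h] <;> decide)
      have main : p l = 0 ∧ p l' = 1 ∧ (p 0 = 2 ∨ p 1 = 2 ∨ p 2 = 2) := by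
        simp only [Fin.ext_iff, Fin.lt_def, Fin.le_def, ne_eq] at *
        have v0 := (p 0).isLt
        have v1 := (p 1).isLt
        have v2 := (p 2).isLt
        have v3 := (p l).isLt
        have v4 := (p l').isLt
        norm_num
        omega
      obtain ⟨m0, m1, m2⟩ := main
      rcases m2 with m2 | m2 | m2
      · exact z.alpha l l' 0 (by decide) hll m0 m1 m2
      · exact z.alpha l l' 1 (by decide) hll m0 m1 m2
      · exact z.alpha l l' 2 (by decide) hll m0 m1 m2
  rcases lt_or_gt_of_ne hne with h | h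
  · exact key 3 4 (Or.inl ⟨rfl, rfl⟩) h
  · exact key 4 3 (Or.inr ⟨rfl, rfl⟩) h

end ZData

/-- the zero lemma -/
theorem Cfg.zero (h : Cfg n K a b p) {t : ℝ} (ht : 0 < t) (hx : t * b (p 2) ≤ a (p 2))
    (hy : a (p 3) ≤ t * b (p 3)) (hb3 : 0 < b (p 3)) :
    (n : ℝ) ^ 5 < 50 * (Q n K a b t (p 3) + Q n K a b t (p 4)) := by
  by_contra hc
  push Not at hc
  have a2 : 0 < a (p 2) := by
    rcases (h.a0 (p 2)).lt_or_eq with h1 | h1
    · exact h1
    · have h2 := h.ab (p 2)
      have h3 := h.b0 (p 2)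
      rw [← h1] at hx h2
      have h4 : 0 < b (p 2) := by linarith
      have : 0 < t * b (p 2) := mul_pos ht h4
      linarith
  have x1 : t * b (p 1) ≤ a (p 1) := by
    have h1 := h.srt 1 2 (by decide)
    have h2 : (t * b (p 1)) * a (p 2) ≤ a (p 1) * a (p 2) := by
      calc (t * b (p 1)) * a (p 2) = t * (b (p 1) * a (p 2)) := by ring
        _ ≤ t * (b (p 2) * a (p 1)) := mul_le_mul_of_nonneg_left h1 ht.le
        _ = (t * b (p 2)) * a (p 1) := by ring
        _ ≤ a (p 2) * a (p 1) := mul_le_mul_of_nonneg_right hx (h.a0 _)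
        _ = a (p 1) * a (p 2) := by ring
    exact le_of_mul_le_mul_right h2 a2
  have a1 : 0 < a (p 1) := by
    rcases (h.a0 (p 1)).lt_or_eq with h1 | h1
    · exact h1
    · have h2 := h.ab (p 1)
      rw [← h1] at x1 h2
      have h4 : 0 < b (p 1) := by linarith
      have : 0 < t * b (p 1) := mul_pos ht h4
      linarith
  have x0 : t * b (p 0) ≤ a (p 0) := by rw [h.hb, mul_zero]; exact h.a0 _
  have cases3 : ∀ k : Fin 5, k ≤ 2 → k = 0 ∨ k = 1 ∨ k = 2 := by decide
  have cases2 : ∀ k : Fin 5, 3 ≤ k → k = 3 ∨ k = 4 := by decide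
  have z : ZData n K a b p t (a (p 3) / b (p 3)) :=
    { cfg := h
      ht := ht
      r3_nonneg := div_nonneg (h.a0 _) hb3.le
      r3_le := by rw [div_le_iff₀ hb3]; exact hy
      xt := by
        intro k hk r h0 h1
        have h2 : r * b (p k) ≤ t * b (p k) := mul_le_mul_of_nonneg_right h1 (h.b0 _)
        refine h2.trans ?_
        rcases cases3 k hk with rfl | rfl | rfl
        · exact x0
        · exact x1
        · exact hx
      yt := by
        intro l hl r h1
        rcases cases2 l hl with rfl | rfl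
        · rwa [div_le_iff₀ hb3] at h1
        · rw [h.ha]
          have : 0 ≤ r := le_trans (div_nonneg (h.a0 _) hb3.le) h1
          exact mul_nonneg this (h.b0 _)
      apos := by
        intro k hk
        rcases cases3 k hk with rfl | rfl | rfl
        · exact h.a_p0
        · exact a1
        · exact a2
      bpos := by
        intro l hl
        rcases cases2 l hl with rfl | rfl
        · exact hb3
        · exact h.b_p4
      sing := by field_simp
      small := hc }
  exact z.false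

end

end Pool.Agent.Helper361_centerflat
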